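import Mathlib

/-!
# Circuits with arbitrary gates and their automorphisms: definitions
-/

set_option autoImplicit false

namespace Pool.Agent.T9h47.SC

/-- A circuit with values in `K` and inputs indexed by `I`: a finite acyclic graph of gates. A gate
is labelled by an input coordinate, or by an operation: an arbitrary function of the multisets of
the values of its children in each role (roles are natural numbers). -/
structure Circuit (K I : Type) where
  /-- the gates -/
  Gate : Type
  /-- there are finitely many gates -/
  fin : Fintype Gate
  /-- a rank function witnessing that the circuit is acyclic -/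
  rank : Gate → ℕ
  /-- a gate is an input gate or an operation gate -/
  lab : Gate → I ⊕ ((ℕ → Multiset K) → K)
  /-- `(r, h) ∈ kids g`: the gate `h` is a child of `g` in the role `r` -/
  kids : Gate → Finset (ℕ × Gate)
  /-- the output gate -/
  out : Gate
  /-- acyclicity -/
  rank_lt : ∀ g p, p ∈ kids g → rank p.2 < rank g

/-- the value of a gate on the input `x` -/
noncomputable def Circuit.val {K I : Type} (C : Circuit K I) (x : I → K) (g : C.Gate) : K :=
  match C.lab g with
  | Sum.inl i => x i
  | Sum.inr f => f fun r =>
      ((C.kids g).attach.filter (fun p => p.1.1 = r)).val.map (fun p => C.val x p.1.2)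
termination_by C.rank g
decreasing_by exact C.rank_lt g _ p.2

/-- `α` is an automorphism of the circuit over the map `π` of the input coordinates: it fixes the
output gate, keeps the operations and the children with their roles, and moves the labels of the
input gates by `π`. -/
structure Circuit.IsAut {K I : Type} (C : Circuit K I) (π : I → I) (α : Equiv.Perm C.Gate) :
    Prop where
  out : α C.out = C.out
  lab : ∀ g, C.lab (α g) = Sum.map π id (C.lab g)
  kids : ∀ g r h, (r, α h) ∈ C.kids (α g) ↔ (r, h) ∈ C.kids g

end Pool.Agent.T9h47.SC
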