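import Mathlib

/-!
# Subgroups of small index in powers of perfect groups
-/

set_option autoImplicit false
set_option linter.unusedSectionVars false

namespace Pool.Agent.T9h47.SC

open Finset
open scoped commutatorElement

section one

variable {ι : Type} [LinearOrder ι] [Fintype ι] {T : Type} [Group T]

/-- some element is not the last nontrivial coordinate `i` of an element of `K` -/
def Ty (K : Subgroup (ι → T)) (i : ι) : Prop :=
  ∃ t : T, ¬ ∃ k ∈ K, (∀ j, i < j → k j = 1) ∧ k i = t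

theorem card_Ty (K : Subgroup (ι → T)) {C : Type} [Fintype C] (c : (ι → T) → C)
    (hc : ∀ σ τ : ι → T, c σ = c τ → σ⁻¹ * τ ∈ K) (I₀ : Finset ι) (hI : ∀ i ∈ I₀, Ty K i) :
    2 ^ I₀.card ≤ Fintype.card C := by
  classical
  have hch : ∀ i, ∃ t : T, i ∈ I₀ → ¬ ∃ k ∈ K, (∀ j, i < j → k j = 1) ∧ k i = t := by
    intro i
    by_cases hi : i ∈ I₀
    · obtain ⟨t, h⟩ := hI i hi
      exact ⟨t, fun _ => h⟩
    · exact ⟨1, fun h => absurd h hi⟩
  choose t ht using hch
  obtain ⟨g, hg⟩ : ∃ g : Finset ι → ι → T, g = fun I i => if i ∈ I then t i else 1 := ⟨_, rfl⟩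
  have hg1 : ∀ I i, i ∈ I → g I i = t i := fun I i h => by rw [hg]; simp only [h, if_true]
  have hg2 : ∀ I i, i ∉ I → g I i = 1 := fun I i h => by rw [hg]; simp only [h, if_false]
  by_contra hcon
  rw [not_le] at hcon
  rw [← card_powerset, ← card_univ] at hcon
  obtain ⟨I, hI1, J, hJ1, hne, heq⟩ := exists_ne_map_eq_of_card_lt_of_maps_to hcon
    (f := fun I => c (g I)) (fun I _ => mem_univ _)
  rw [mem_powerset] at hI1 hJ1
  have hsd : (symmDiff I J).Nonempty := by
    rw [nonempty_iff_ne_empty, ne_eq, ← bot_eq_empty, symmDiff_eq_bot]; exact hne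
  obtain ⟨i, hi1, hi2⟩ := (symmDiff I J).exists_maximal hsd
  have key : ∀ I J : Finset ι, J ⊆ I₀ → c (g I) = c (g J) → i ∉ I → i ∈ J →
      (∀ j, i < j → (j ∈ I ↔ j ∈ J)) → False := by
    intro I J hJ1 heq hiI hiJ hgt
    refine ht i (hJ1 hiJ) ⟨_, hc _ _ heq, ?_, ?_⟩
    · intro j hj
      rw [Pi.mul_apply, Pi.inv_apply]
      by_cases hjI : j ∈ I
      · rw [hg1 _ _ hjI, hg1 _ _ ((hgt j hj).1 hjI), inv_mul_cancel]
      · rw [hg2 _ _ hjI, hg2 _ _ (fun h => hjI ((hgt j hj).2 h)), inv_mul_cancel]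
    · rw [Pi.mul_apply, Pi.inv_apply, hg2 _ _ hiI, hg1 _ _ hiJ, inv_one, one_mul]
  have hgt : ∀ j, i < j → (j ∈ I ↔ j ∈ J) := by
    intro j hj
    by_contra h
    have hj' : j ∈ symmDiff I J := by
      rw [mem_symmDiff]
      tauto
    exact absurd hj (not_lt.2 (hi2 hj' hj.le))
  rw [mem_symmDiff] at hi1
  rcases hi1 with ⟨h1, h2⟩ | ⟨h1, h2⟩
  · exact key J I hI1 heq.symm h2 h1 (fun j hj => (hgt j hj).symm)
  · exact key I J hJ1 heq h2 h1 hgt

end one

/-- A subgroup of index less than `2 ^ r` of a power of a perfect group contains all but `2 r`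
factors. -/
theorem few_bad {ι : Type} [Fintype ι] [DecidableEq ι] {T : Type} [Group T]
    (hT : commutator T = ⊤) (K : Subgroup (ι → T)) {C : Type} [Fintype C] (c : (ι → T) → C)
    (hc : ∀ σ τ : ι → T, c σ = c τ → σ⁻¹ * τ ∈ K) (r : ℕ) (hr : Fintype.card C < 2 ^ r)
    (I₀ : Finset ι) (hI : ∀ i ∈ I₀, ∃ t, Pi.mulSingle i t ∉ K) : I₀.card ≤ 2 * r := by
  classical
  obtain ⟨e⟩ : Nonempty (ι ≃ Fin (Fintype.card ι)) := ⟨Fintype.equivFin ι⟩
  -- order and reverse order
  let L₁ : LinearOrder ι := LinearOrder.lift' e e.injective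
  let L₂ : LinearOrder ι := LinearOrder.lift' (fun i => OrderDual.toDual (e i))
    (fun i j h => e.injective (OrderDual.toDual.injective h))
  have hlt1 : ∀ i j : ι, @LT.lt ι L₁.toLT i j ↔ e i < e j := fun i j => Iff.rfl
  have hlt2 : ∀ i j : ι, @LT.lt ι L₂.toLT i j ↔ e j < e i := fun i j => Iff.rfl
  obtain ⟨I₁, hI₁⟩ : ∃ I₁ : Finset ι, I₁ = I₀.filter (fun i => @Ty ι L₁ T _ K i) := ⟨_, rfl⟩
  obtain ⟨I₂, hI₂⟩ : ∃ I₂ : Finset ι, I₂ = I₀.filter (fun i => @Ty ι L₂ T _ K i) := ⟨_, rfl⟩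
  have hc1 : 2 ^ I₁.card ≤ Fintype.card C := @card_Ty ι L₁ _ T _ K C _ c hc I₁ (by
    intro i hi; rw [hI₁, mem_filter] at hi; exact hi.2)
  have hc2 : 2 ^ I₂.card ≤ Fintype.card C := @card_Ty ι L₂ _ T _ K C _ c hc I₂ (by
    intro i hi; rw [hI₂, mem_filter] at hi; exact hi.2)
  have hr1 : I₁.card < r := (Nat.pow_lt_pow_iff_right (by norm_num)).1 (hc1.trans_lt hr)
  have hr2 : I₂.card < r := (Nat.pow_lt_pow_iff_right (by norm_num)).1 (hc2.trans_lt hr)
  have hcov : I₀ ⊆ I₁ ∪ I₂ := by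
    intro i hi
    rw [mem_union, hI₁, hI₂, mem_filter, mem_filter]
    by_contra hcon
    rw [not_or] at hcon
    have hn1 : ¬ @Ty ι L₁ T _ K i := fun h => hcon.1 ⟨hi, h⟩
    have hn2 : ¬ @Ty ι L₂ T _ K i := fun h => hcon.2 ⟨hi, h⟩
    unfold Ty at hn1 hn2
    push Not at hn1 hn2
    obtain ⟨t, ht⟩ := hI i hi
    apply ht
    have h1 : commutator T ≤ K.comap (MonoidHom.mulSingle (fun _ => T) i) := by
      rw [commutator_def, Subgroup.commutator_le]
      intro a _ b _
      rw [Subgroup.mem_comap]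
      obtain ⟨k, hk1, hk2, hk3⟩ := hn1 a
      obtain ⟨k', hk1', hk2', hk3'⟩ := hn2 b
      have h2 : (MonoidHom.mulSingle (fun _ : ι => T) i) ⁅a, b⁆ = ⁅k, k'⁆ := by
        ext j
        have hkk : ⁅k, k'⁆ j = k j * k' j * (k j)⁻¹ * (k' j)⁻¹ := rfl
        rw [MonoidHom.mulSingle_apply, commutatorElement_def, hkk]
        rcases lt_trichotomy (e i) (e j) with h | h | h
        · rw [Pi.mulSingle_eq_of_ne (by rintro rfl; exact lt_irrefl _ h), hk2 j h]
          group
        · have hij : i = j := e.injective h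
          subst hij
          rw [Pi.mulSingle_eq_same, hk3, hk3']
        · rw [Pi.mulSingle_eq_of_ne (by rintro rfl; exact lt_irrefl _ h), hk2' j h]
          group
      rw [h2, commutatorElement_def]
      exact K.mul_mem (K.mul_mem (K.mul_mem hk1 hk1') (K.inv_mem hk1)) (K.inv_mem hk1')
    rw [hT] at h1
    exact h1 (Subgroup.mem_top t)
  have hcard := card_le_card hcov
  have h4 := card_union_le I₁ I₂
  omega

/-- elements of the product of good factors -/
theorem mem_of_good {ι : Type} [Fintype ι] [DecidableEq ι] {T : Type} [Group T]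
    (K : Subgroup (ι → T)) (b : ι → T) (h : ∀ i, b i ≠ 1 → ∀ t, Pi.mulSingle i t ∈ K) : b ∈ K := by
  classical
  have key : ∀ (s : Finset ι) (b : ι → T), (∀ i, b i ≠ 1 → ∀ t, Pi.mulSingle i t ∈ K) →
      (∀ i, i ∉ s → b i = 1) → b ∈ K := by
    intro s
    induction s using Finset.induction_on with
    | empty =>
      intro b _ hb
      have : b = 1 := funext fun i => hb i (by simp)
      rw [this]; exact K.one_mem
    | insert a s ha ih =>
      intro b hb hs
      have h1 : b = (b * Pi.mulSingle a (b a)⁻¹) * Pi.mulSingle a (b a) := by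
        rw [mul_assoc, ← Pi.mulSingle_mul, inv_mul_cancel, Pi.mulSingle_one, mul_one]
      have h2 : (b * Pi.mulSingle a (b a)⁻¹) ∈ K := by
        refine ih _ ?_ ?_
        · intro i hi t
          refine hb i ?_ t
          intro h
          apply hi
          rw [Pi.mul_apply, h, one_mul]
          by_cases hia : i = a
          · subst hia; rw [Pi.mulSingle_eq_same, h, inv_one]
          · rw [Pi.mulSingle_eq_of_ne hia]
        · intro i hi
          rw [Pi.mul_apply]
          by_cases hia : i = a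
          · subst hia; rw [Pi.mulSingle_eq_same, mul_inv_cancel]
          · rw [Pi.mulSingle_eq_of_ne hia, mul_one]
            exact hs i (by rw [mem_insert, not_or]; exact ⟨hia, hi⟩)
      rw [h1]
      refine K.mul_mem h2 ?_
      by_cases hba : b a = 1
      · rw [hba, Pi.mulSingle_one]; exact K.one_mem
      · exact hb a hba _
  exact key univ b h (fun i hi => absurd (mem_univ i) hi)

end Pool.Agent.T9h47.SC
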