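import Mathlib
import Pool.Agent.T9h47.SC.Pi
import Pool.Agent.T9h47.SC.CircDef

/-!
# Circuits with arbitrary gates, their automorphisms, and a symmetry argument
-/

set_option autoImplicit false
set_option linter.unusedSectionVars false

namespace Pool.Agent.T9h47.SC

open Finset

theorem papply_inv {α : Type} (f : Equiv.Perm α) (x : α) : f (f⁻¹ x) = x := f.apply_symm_apply x

theorem pinv_apply {α : Type} (f : Equiv.Perm α) (x : α) : f⁻¹ (f x) = x := f.symm_apply_apply x

variable {K I : Type} (C : Circuit K I)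

theorem Circuit.val_inl (x : I → K) (g : C.Gate) (i : I) (h : C.lab g = Sum.inl i) :
    C.val x g = x i := by
  rw [Circuit.val, h]

theorem Circuit.val_inr (x : I → K) (g : C.Gate) (f : (ℕ → Multiset K) → K)
    (h : C.lab g = Sum.inr f) :
    C.val x g = f fun r => ((C.kids g).filter (fun p => p.1 = r)).val.map
      (fun p => C.val x p.2) := by
  rw [Circuit.val, h]
  show (f fun r => _) = f fun r => _
  congr 1
  funext r
  have h1 : ((C.kids g).filter (fun p => p.1 = r)).val =
      (((C.kids g).attach.filter (fun p => p.1.1 = r)).val.map (fun p => p.1)) := by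
    have h2 := Finset.attach_val (C.kids g)
    rw [Finset.filter_val, Finset.filter_val]
    conv_lhs => rw [← Multiset.attach_map_val (C.kids g).val]
    rw [Multiset.filter_map]
    rfl
  rw [h1, Multiset.map_map]
  rfl

theorem Circuit.IsAut.one : C.IsAut id 1 where
  out := rfl
  lab g := by
    rw [Equiv.Perm.one_apply]
    cases C.lab g <;> rfl
  kids _ _ _ := Iff.rfl

theorem Circuit.IsAut.mul {C : Circuit K I} {π π' : I → I} {α α' : Equiv.Perm C.Gate}
    (h : C.IsAut π α) (h' : C.IsAut π' α') : C.IsAut (π ∘ π') (α * α') where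
  out := by rw [Equiv.Perm.mul_apply, h'.out, h.out]
  lab g := by
    rw [Equiv.Perm.mul_apply, h.lab, h'.lab]
    cases C.lab g <;> rfl
  kids g r k := by
    rw [Equiv.Perm.mul_apply, Equiv.Perm.mul_apply, h.kids, h'.kids]

theorem Circuit.IsAut.inv {C : Circuit K I} {π π' : I → I} {α : Equiv.Perm C.Gate}
    (h : C.IsAut π α) (hπ : π' ∘ π = id) : C.IsAut π' α⁻¹ where
  out := by rw [Equiv.Perm.inv_eq_iff_eq, h.out]
  lab g := by
    have h1 := h.lab (α⁻¹ g)
    rw [papply_inv] at h1
    rw [h1]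
    cases C.lab (α⁻¹ g) with
    | inl i =>
      have h2 : π' (π i) = i := congrFun hπ i
      show Sum.inl i = Sum.inl (π' (π i))
      rw [h2]
    | inr f => rfl
  kids g r k := by
    have h1 := h.kids (α⁻¹ g) r (α⁻¹ k)
    rw [papply_inv, papply_inv] at h1
    exact h1.symm

/-- Evaluation is equivariant. -/
theorem Circuit.IsAut.val {C : Circuit K I} {π : I → I} {α : Equiv.Perm C.Gate}
    (h : C.IsAut π α) (x : I → K) : ∀ (n : ℕ) (g : C.Gate), C.rank g < n →
    C.val x (α g) = C.val (x ∘ π) g := by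
  classical
  intro n
  induction n with
  | zero => intro g hg; exact absurd hg (Nat.not_lt_zero _)
  | succ n ih =>
    intro g hg
    have hl := h.lab g
    cases hg' : C.lab g with
    | inl i =>
      rw [hg'] at hl
      rw [C.val_inl x (α g) (π i) hl, C.val_inl _ g i hg']
      rfl
    | inr f =>
      rw [hg'] at hl
      rw [C.val_inr x (α g) f hl, C.val_inr _ g f hg']
      congr 1
      funext r
      have h1 : (C.kids (α g)).filter (fun p => p.1 = r) =
          ((C.kids g).filter (fun p => p.1 = r)).map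
            ⟨fun p => (p.1, α p.2), fun p q hpq => by
              have h2 := Prod.ext_iff.1 hpq
              exact Prod.ext h2.1 (α.injective h2.2)⟩ := by
        ext ⟨r', k⟩
        rw [mem_filter, mem_map]
        constructor
        · rintro ⟨hk, hr⟩
          refine ⟨(r', α⁻¹ k), ?_, ?_⟩
          · rw [mem_filter]
            refine ⟨?_, hr⟩
            rw [← h.kids, papply_inv]
            exact hk
          · show (r', α (α⁻¹ k)) = (r', k)
            rw [papply_inv]
        · rintro ⟨⟨r'', k'⟩, hk', heq⟩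
          rw [mem_filter] at hk'
          have h2 := Prod.ext_iff.1 heq
          have h3 : r'' = r' := h2.1
          have h4 : α k' = k := h2.2
          subst h3
          subst h4
          exact ⟨(h.kids g r'' k').2 hk'.1, hk'.2⟩
      rw [h1, Finset.map_val, Multiset.map_map]
      refine Multiset.map_congr rfl ?_
      rintro ⟨r', k⟩ hk
      have hk' : (r', k) ∈ C.kids g := (mem_filter.1 hk).1
      exact ih k ((C.rank_lt g _ hk').trans_le (Nat.lt_succ_iff.1 hg))

section main

variable {E V T : Type} [Fintype E] [DecidableEq E] [Group T]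

/-- **The symmetry argument.** -/
theorem indist (hT : commutator T = ⊤) (ρ : (E → T) → I → I) (hρ1 : ρ 1 = id)
    (hρm : ∀ b b', ρ (b * b') = ρ b ∘ ρ b') (hsym : ∀ b, ∃ α, C.IsAut (ρ b) α)
    (x₀ : I → K) (x : V → I → K) (r : ℕ) (hr : @Fintype.card C.Gate C.fin < 2 ^ r)
    (Big : Finset E → V → Prop)
    (hB2 : ∀ Δ : Finset E, Δ.card ≤ 2 * r → ∀ v v', Big Δ v → Big Δ v' →
      ∃ b : E → T, (∀ e ∈ Δ, b e = 1) ∧ x v' ∘ ρ b = x v)
    (hB3 : ∀ Δ Δ' : Finset E, Δ.card ≤ 2 * r → Δ'.card ≤ 2 * r → ∃ v, Big Δ v ∧ Big Δ' v)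
    (hB4 : ∀ Δ : Finset E, Δ.card ≤ 2 * r → ∀ v, Big Δ v → ∀ i, x v i ≠ x₀ i →
      ∃ e, e ∉ Δ ∧ ∃ t : T, ρ (Pi.mulSingle e t) i ≠ i) :
    ∃ v, C.val (x v) C.out = C.val x₀ C.out := by
  classical
  let _ := C.fin
  -- stabilizers
  have hinv : ∀ b, ρ b⁻¹ ∘ ρ b = id := by intro b; rw [← hρm, inv_mul_cancel, hρ1]
  have hinv' : ∀ b, ρ b ∘ ρ b⁻¹ = id := by intro b; rw [← hρm, mul_inv_cancel, hρ1]
  let St : C.Gate → Subgroup (E → T) := fun g =>
    { carrier := {b | ∃ α, C.IsAut (ρ b) α ∧ α g = g}
      one_mem' := ⟨1, by rw [hρ1]; exact Circuit.IsAut.one C, rfl⟩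
      mul_mem' := by
        rintro b b' ⟨α, h1, h2⟩ ⟨α', h1', h2'⟩
        refine ⟨α * α', ?_, ?_⟩
        · rw [hρm]; exact h1.mul h1'
        · rw [Equiv.Perm.mul_apply, h2', h2]
      inv_mem' := by
        rintro b ⟨α, h1, h2⟩
        refine ⟨α⁻¹, h1.inv (hinv b), ?_⟩
        rw [Equiv.Perm.inv_eq_iff_eq, h2] }
  have hSt : ∀ g b, b ∈ St g ↔ ∃ α, C.IsAut (ρ b) α ∧ α g = g := fun g b => Iff.rfl
  obtain ⟨Δ, hΔ⟩ : ∃ Δ : C.Gate → Finset E,
    Δ = fun g => univ.filter (fun e => ∃ t, Pi.mulSingle e t ∉ St g) := ⟨_, rfl⟩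
  have hΔm : ∀ g e, e ∈ Δ g ↔ ∃ t, Pi.mulSingle e t ∉ St g := by
    intro g e; rw [hΔ]; simp only [mem_filter, mem_univ, true_and]
  have hΔcard : ∀ g, (Δ g).card ≤ 2 * r := by
    intro g
    choose al hal using hsym
    refine few_bad hT (St g) (fun b => al b g) ?_ r hr (Δ g) (fun e he => (hΔm g e).1 he)
    intro σ τ hστ
    rw [hSt]
    refine ⟨(al σ)⁻¹ * al τ, ?_, ?_⟩
    · rw [hρm]; exact ((hal σ).inv (hinv σ)).mul (hal τ)
    · rw [Equiv.Perm.mul_apply, Equiv.Perm.inv_eq_iff_eq]
      exact hστ.symm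
  have hgood : ∀ g b, (∀ e ∈ Δ g, b e = 1) → b ∈ St g := by
    intro g b hb
    refine mem_of_good (St g) b ?_
    intro e he t
    by_contra h
    exact he (hb e ((hΔm g e).2 ⟨t, h⟩))
  have hΔinv : ∀ (b : E → T) (α : Equiv.Perm C.Gate), C.IsAut (ρ b) α → ∀ g,
      Δ (α g) = Δ g := by
    intro b α hα g
    have hsub : ∀ (b : E → T) (α : Equiv.Perm C.Gate), C.IsAut (ρ b) α → ∀ g,
        Δ (α g) ⊆ Δ g := by
      intro b α hα g e he
      rw [hΔm] at he ⊢
      obtain ⟨t, ht⟩ := he
      refine ⟨(b e)⁻¹ * t * b e, ?_⟩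
      intro hmem
      apply ht
      rw [hSt] at hmem ⊢
      obtain ⟨β, hβ1, hβ2⟩ := hmem
      refine ⟨α * β * α⁻¹, ?_, ?_⟩
      · have h1 : (Pi.mulSingle e t : E → T) =
            b * Pi.mulSingle e ((b e)⁻¹ * t * b e) * b⁻¹ := by
          ext j
          rw [Pi.mul_apply, Pi.mul_apply, Pi.inv_apply]
          by_cases hj : j = e
          · subst hj
            rw [Pi.mulSingle_eq_same, Pi.mulSingle_eq_same]
            group
          · rw [Pi.mulSingle_eq_of_ne hj, Pi.mulSingle_eq_of_ne hj]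
            group
        rw [h1, hρm, hρm]
        exact (hα.mul hβ1).mul (hα.inv (hinv b))
      · rw [Equiv.Perm.mul_apply, Equiv.Perm.mul_apply, pinv_apply, hβ2]
    refine Subset.antisymm (hsub b α hα g) ?_
    have h2 := hsub b⁻¹ α⁻¹ (hα.inv (hinv b)) (α g)
    rwa [pinv_apply] at h2
  -- main claim
  have main : ∀ (n : ℕ) (g : C.Gate), C.rank g < n → ∀ v, Big (Δ g) v →
      C.val (x v) g = C.val x₀ g := by
    intro n
    induction n with
    | zero => intro g hg; exact absurd hg (Nat.not_lt_zero _)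
    | succ n ih =>
      intro g hg v hv
      cases hl : C.lab g with
      | inl i =>
        rw [C.val_inl _ g i hl, C.val_inl _ g i hl]
        by_contra hne
        obtain ⟨e, he, t, ht⟩ := hB4 (Δ g) (hΔcard g) v hv i hne
        apply he
        rw [hΔm]
        refine ⟨t, ?_⟩
        rw [hSt]
        rintro ⟨α, hα, hαg⟩
        have h1 := hα.lab g
        rw [hαg, hl] at h1
        have h2 : i = ρ (Pi.mulSingle e t) i := Sum.inl.inj h1
        exact ht h2.symm
      | inr f =>
        rw [C.val_inr _ g f hl, C.val_inr _ g f hl]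
        congr 1
        funext s
        -- the vertex and the automorphism attached to a set of edges
        have hch : ∀ D : Finset E, ∃ (v' : V) (b : E → T) (α : Equiv.Perm C.Gate),
            D.card ≤ 2 * r → (Big D v' ∧ x v' ∘ ρ b = x v ∧ C.IsAut (ρ b) α ∧ α g = g) := by
          intro D
          by_cases hD : D.card ≤ 2 * r
          · obtain ⟨v', hv1, hv2⟩ := hB3 (Δ g) D (hΔcard g) hD
            obtain ⟨b, hb1, hb2⟩ := hB2 (Δ g) (hΔcard g) v v' hv hv1
            obtain ⟨α, hα1, hα2⟩ := (hSt g b).1 (hgood g b hb1)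
            exact ⟨v', b, α, fun _ => ⟨hv2, hb2, hα1, hα2⟩⟩
          · exact ⟨v, 1, 1, fun h => absurd h hD⟩
        choose v' b al hal using hch
        have hkid : ∀ h, (s, h) ∈ C.kids g → (s, al (Δ h) h) ∈ C.kids g := by
          intro h hh
          obtain ⟨_, _, h3, h4⟩ := hal (Δ h) (hΔcard h)
          have h5 := (h3.kids g s h).2 hh
          rwa [h4] at h5
        have hval : ∀ h, (s, h) ∈ C.kids g → C.val (x v) h = C.val x₀ (al (Δ h) h) := by
          intro h hh
          obtain ⟨h1, h2, h3, h4⟩ := hal (Δ h) (hΔcard h)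
          rw [← h2, ← h3.val (x (v' (Δ h))) (C.rank h + 1) h (Nat.lt_succ_self _)]
          refine ih _ ((C.rank_lt g _ (hkid h hh)).trans_le (Nat.lt_succ_iff.1 hg)) _ ?_
          rw [hΔinv _ _ h3]
          exact h1
        have hinj : ∀ h h', al (Δ h) h = al (Δ h') h' → h = h' := by
          intro h h' heq
          have h1 : Δ h = Δ h' := by
            rw [← hΔinv _ _ (hal (Δ h) (hΔcard h)).2.2.1 h,
              ← hΔinv _ _ (hal (Δ h') (hΔcard h')).2.2.1 h', heq]
          rw [h1] at heq
          exact (al (Δ h')).injective heq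
        -- the map of the children
        obtain ⟨S, hS⟩ : ∃ S, S = (C.kids g).filter (fun p => p.1 = s) := ⟨_, rfl⟩
        rw [← hS]
        have hSm : ∀ p, p ∈ S ↔ p ∈ C.kids g ∧ p.1 = s := by intro p; rw [hS, mem_filter]
        have himg : S.image (fun p => (p.1, al (Δ p.2) p.2)) = S := by
          refine eq_of_subset_of_card_le ?_ ?_
          · intro p hp
            rw [mem_image] at hp
            obtain ⟨⟨s', h⟩, hq, rfl⟩ := hp
            rw [hSm] at hq ⊢
            obtain ⟨hq1, hq2⟩ := hq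
            have hs : s' = s := hq2
            subst hs
            exact ⟨hkid h hq1, rfl⟩
          · rw [card_image_of_injective]
            rintro ⟨s1, h1⟩ ⟨s2, h2⟩ heq
            have h3 := Prod.ext_iff.1 heq
            have h4 : s1 = s2 := h3.1
            have h5 : h1 = h2 := hinj h1 h2 h3.2
            rw [h4, h5]
        have hmap : S.val.map (fun p => (p.1, al (Δ p.2) p.2)) = S.val := by
          have h1 := congrArg Finset.val himg
          rw [Finset.image_val, Multiset.dedup_eq_self.2] at h1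
          · exact h1
          · refine Multiset.Nodup.map ?_ S.nodup
            rintro ⟨s1, h1⟩ ⟨s2, h2⟩ heq
            have h3 := Prod.ext_iff.1 heq
            have h4 : s1 = s2 := h3.1
            have h5 : h1 = h2 := hinj h1 h2 h3.2
            rw [h4, h5]
        have hrhs : S.val.map (fun p => C.val x₀ p.2) =
            S.val.map (fun p => C.val x₀ (al (Δ p.2) p.2)) := by
          conv_lhs => rw [← hmap, Multiset.map_map]
          rfl
        rw [hrhs]
        refine Multiset.map_congr rfl ?_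
        rintro ⟨s', h⟩ hp
        have hp' := (hSm _).1 hp
        have hs : s' = s := hp'.2
        subst hs
        exact hval h hp'.1
  -- the output gate
  have hΔout : Δ C.out = ∅ := by
    rw [eq_empty_iff_forall_notMem]
    intro e he
    rw [hΔm] at he
    obtain ⟨t, ht⟩ := he
    apply ht
    rw [hSt]
    obtain ⟨α, hα⟩ := hsym (Pi.mulSingle e t)
    exact ⟨α, hα, hα.out⟩
  obtain ⟨v, hv, _⟩ := hB3 ∅ ∅ (by rw [card_empty]; omega) (by rw [card_empty]; omega)
  refine ⟨v, main (C.rank C.out + 1) C.out (Nat.lt_succ_self _) v ?_⟩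
  rw [hΔout]
  exact hv

end main

end Pool.Agent.T9h47.SC
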