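import Mathlib
import Pool.Agent.H521R3.BI.Marg

/-!
# Connectivity in Margulis expanders after removing few edges
-/

set_option autoImplicit false
set_option linter.unusedSectionVars false

namespace Pool.Agent.T9h47.SC

open Finset
open Pool.Agent.H521R3.BI (sg sg_expand)

/-- vertices -/
abbrev Vx (n : ℕ) : Type := ZMod n × ZMod n

/-- edges: `(v, k)` goes from `v` to `sg n k v` -/
abbrev Ed (n : ℕ) : Type := Vx n × Fin 4

/-- the eight edge slots at a vertex -/
abbrev Sl : Type := Fin 4 ⊕ Fin 4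

/-- the edges at a vertex -/
def inc {n : ℕ} (v : Vx n) : Sl → Ed n
  | Sum.inl k => (v, k)
  | Sum.inr k => ((sg n k).symm v, k)

/-- boundary modulo two -/
def bd {n : ℕ} (f : Ed n → ZMod 2) (v : Vx n) : ZMod 2 := ∑ i, f (inc v i)

theorem bd_eq {n : ℕ} (f : Ed n → ZMod 2) (v : Vx n) :
    bd f v = ∑ k, f (v, k) + ∑ k, f ((sg n k).symm v, k) := by
  unfold bd
  rw [Fintype.sum_sum_type]
  rfl

theorem bd_add {n : ℕ} (f g : Ed n → ZMod 2) (v : Vx n) : bd (f + g) v = bd f v + bd g v := by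
  unfold bd
  rw [← sum_add_distrib]
  rfl

theorem z2_add_self (a : ZMod 2) : a + a = 0 := CharTwo.add_self_eq_zero a

theorem sum_bd {n : ℕ} [NeZero n] (f : Ed n → ZMod 2) : ∑ v, bd f v = 0 := by
  rw [sum_congr rfl (fun v _ => bd_eq f v), sum_add_distrib]
  have h1 : ∑ v : Vx n, ∑ k, f ((sg n k).symm v, k) = ∑ v : Vx n, ∑ k, f (v, k) := by
    rw [sum_comm, sum_comm (s := univ (α := Vx n))]
    refine sum_congr rfl fun k _ => ?_
    exact Equiv.sum_comp (sg n k).symm (fun v => f (v, k))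
  rw [h1, z2_add_self]

/-- indicator of a vertex -/
def dl {n : ℕ} (v : Vx n) (u : Vx n) : ZMod 2 := if u = v then 1 else 0

theorem dl_same {n : ℕ} (v : Vx n) : dl v v = 1 := if_pos rfl

theorem dl_ne {n : ℕ} (v u : Vx n) (h : u ≠ v) : dl v u = 0 := if_neg h

theorem sum_dl {n : ℕ} [NeZero n] (v : Vx n) : ∑ u, dl v u = 1 := by
  unfold dl
  rw [sum_ite_eq' univ v]
  exact if_pos (mem_univ _)

/-- `v` and `w` are joined by a chain avoiding `Δ` -/
def Conn {n : ℕ} (Δ : Finset (Ed n)) (v w : Vx n) : Prop :=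
  ∃ f : Ed n → ZMod 2, (∀ e ∈ Δ, f e = 0) ∧ ∀ u, bd f u = dl v u + dl w u

variable {n : ℕ}

theorem conn_refl (Δ : Finset (Ed n)) (v : Vx n) : Conn Δ v v := by
  refine ⟨0, fun _ _ => rfl, fun u => ?_⟩
  rw [z2_add_self]
  unfold bd
  exact sum_eq_zero fun _ _ => rfl

theorem conn_symm {Δ : Finset (Ed n)} {v w : Vx n} (h : Conn Δ v w) : Conn Δ w v := by
  obtain ⟨f, h1, h2⟩ := h
  exact ⟨f, h1, fun u => by rw [h2, add_comm]⟩

theorem conn_trans {Δ : Finset (Ed n)} {u v w : Vx n} (h : Conn Δ u v) (h' : Conn Δ v w) :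
    Conn Δ u w := by
  obtain ⟨f, h1, h2⟩ := h
  obtain ⟨g, h3, h4⟩ := h'
  refine ⟨f + g, fun e he => ?_, fun x => ?_⟩
  · show f e + g e = 0
    rw [h1 e he, h3 e he, add_zero]
  · rw [bd_add, h2, h4]
    have h5 : ∀ a b c : ZMod 2, a + b + (b + c) = a + c := by decide
    exact h5 _ _ _

theorem conn_edge {Δ : Finset (Ed n)} (v : Vx n) (k : Fin 4) (h : (v, k) ∉ Δ) :
    Conn Δ v (sg n k v) := by
  refine ⟨fun e => if e = (v, k) then 1 else 0, ?_, ?_⟩
  · intro e he
    have : e ≠ (v, k) := by rintro rfl; exact h he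
    exact if_neg this
  · intro u
    rw [bd_eq, sum_eq_single k, sum_eq_single k]
    · have h3 : ((u, k) : Ed n) = (v, k) ↔ u = v :=
        ⟨fun h => (Prod.ext_iff.1 h).1, fun h => by rw [h]⟩
      have h4 : (((sg n k).symm u, k) : Ed n) = (v, k) ↔ u = sg n k v := by
        constructor
        · intro h
          have h5 : (sg n k).symm u = v := (Prod.ext_iff.1 h).1
          rw [← h5, Equiv.apply_symm_apply]
        · rintro rfl
          rw [Equiv.symm_apply_apply]
      unfold dl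
      simp only [h3, h4]
    · intro k' _ hk'
      exact if_neg (fun h => hk' (Prod.ext_iff.1 h).2)
    · intro h; exact absurd (mem_univ _) h
    · intro k' _ hk'
      exact if_neg (fun h => hk' (Prod.ext_iff.1 h).2)
    · intro h; exact absurd (mem_univ _) h

/-- edge expansion for a union of components -/
theorem closed_bound [NeZero n] (Δ : Finset (Ed n)) (S : Finset (Vx n))
    (hS : ∀ v w, v ∈ S → Conn Δ v w → w ∈ S) :
    S.card * (n ^ 2 - S.card : ℤ) ≤ 800 * n ^ 2 * Δ.card := by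
  classical
  have h1 := sg_expand n S
  have h2 : ∑ k, (S.filter (fun v => sg n k v ∉ S)).card ≤ Δ.card := by
    rw [← card_sigma]
    refine card_le_card_of_injOn (fun p => (p.2, p.1)) ?_ ?_
    · intro p hp
      rw [mem_coe, mem_sigma, mem_filter] at hp
      show (p.2, p.1) ∈ Δ
      by_contra h
      exact hp.2.2 (hS _ _ hp.2.1 (conn_edge p.2 p.1 h))
    · rintro ⟨k, v⟩ _ ⟨k', v'⟩ _ heq
      have h3 := Prod.ext_iff.1 heq
      have h4 : v = v' := h3.1
      have h5 : k = k' := h3.2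
      subst h4 h5
      rfl
  have h3 : (∑ k, ((S.filter (fun v => sg n k v ∉ S)).card : ℝ)) ≤ Δ.card := by
    exact_mod_cast h2
  have h4 : (S.card : ℝ) * ((n : ℝ) ^ 2 - S.card) ≤ 800 * (n : ℝ) ^ 2 * Δ.card := by
    refine h1.trans ?_
    exact mul_le_mul_of_nonneg_left h3 (by positivity)
  have h5 : (((S.card : ℤ) * ((n : ℤ) ^ 2 - S.card) : ℤ) : ℝ) ≤
      ((800 * (n : ℤ) ^ 2 * Δ.card : ℤ) : ℝ) := by
    push_cast
    exact h4
  exact_mod_cast h5

/-- unions of components are small or large -/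
theorem closed_dichotomy [NeZero n] (Δ : Finset (Ed n)) (S : Finset (Vx n))
    (hS : ∀ v w, v ∈ S → Conn Δ v w → w ∈ S) :
    (2 * S.card ≤ n ^ 2 → S.card ≤ 1600 * Δ.card) ∧
    (n ^ 2 ≤ 2 * S.card → n ^ 2 ≤ S.card + 1600 * Δ.card) := by
  have h1 := closed_bound Δ S hS
  have hn : 0 < n := Nat.pos_of_ne_zero (NeZero.ne n)
  obtain ⟨M, hM⟩ : ∃ M : ℤ, M = (n : ℤ) ^ 2 := ⟨_, rfl⟩
  obtain ⟨s, hs⟩ : ∃ s : ℤ, s = (S.card : ℤ) := ⟨_, rfl⟩
  obtain ⟨d, hd⟩ : ∃ d : ℤ, d = (Δ.card : ℤ) := ⟨_, rfl⟩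
  have hM0 : 0 < M := by rw [hM]; positivity
  have hs0 : 0 ≤ s := by rw [hs]; positivity
  have hd0 : 0 ≤ d := by rw [hd]; positivity
  rw [← hM, ← hs, ← hd] at h1
  constructor
  · intro h
    have h2 : 2 * s ≤ M := by rw [hs, hM]; exact_mod_cast h
    have h3 : s ≤ 1600 * d := by
      have h4 : s * M ≤ 1600 * d * M := by nlinarith
      exact le_of_mul_le_mul_right h4 hM0
    rw [hs, hd] at h3
    exact_mod_cast h3
  · intro h
    have h2 : M ≤ 2 * s := by rw [hs, hM]; exact_mod_cast h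
    have h3 : M ≤ s + 1600 * d := by
      by_contra hcon
      rw [not_le] at hcon
      have h5 : s * (1600 * d) < s * (M - s) := by
        apply mul_lt_mul_of_pos_left
        · linarith
        · linarith
      nlinarith
    rw [hs, hd, hM] at h3
    exact_mod_cast h3

open Classical in
/-- the component of a vertex -/
noncomputable def comp [NeZero n] (Δ : Finset (Ed n)) (v : Vx n) : Finset (Vx n) :=
  univ.filter (fun w => Conn Δ v w)

theorem mem_comp [NeZero n] {Δ : Finset (Ed n)} {v w : Vx n} : w ∈ comp Δ v ↔ Conn Δ v w := by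
  unfold comp
  simp only [mem_filter, mem_univ, true_and]

theorem comp_closed [NeZero n] (Δ : Finset (Ed n)) (v : Vx n) :
    ∀ u w, u ∈ comp Δ v → Conn Δ u w → w ∈ comp Δ v := by
  intro u w hu huw
  rw [mem_comp] at hu ⊢
  exact conn_trans hu huw

/-- in the big component -/
def Big [NeZero n] (Δ : Finset (Ed n)) (v : Vx n) : Prop := n ^ 2 < 2 * (comp Δ v).card

theorem exists_big [NeZero n] (Δ : Finset (Ed n)) (h : 4800 * Δ.card < n ^ 2) :
    ∃ v, Big Δ v := by
  classical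
  by_contra hcon
  push Not at hcon
  unfold Big at hcon
  push Not at hcon
  have hn : 0 < n := Nat.pos_of_ne_zero (NeZero.ne n)
  have hcard : (univ : Finset (Vx n)).card = n ^ 2 := by
    rw [card_univ, Fintype.card_prod, ZMod.card]; ring
  -- a maximal closed set of size at most one half
  obtain ⟨F, hF⟩ : ∃ F : Finset (Finset (Vx n)), F = univ.filter (fun S =>
    (∀ v w, v ∈ S → Conn Δ v w → w ∈ S) ∧ 2 * S.card ≤ n ^ 2) := ⟨_, rfl⟩
  have hFm : ∀ S, S ∈ F ↔ (∀ v w, v ∈ S → Conn Δ v w → w ∈ S) ∧ 2 * S.card ≤ n ^ 2 := by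
    intro S; rw [hF, mem_filter]; exact ⟨fun h => h.2, fun h => ⟨mem_univ _, h⟩⟩
  have hne : F.Nonempty := ⟨∅, (hFm ∅).2 ⟨fun v w hv => absurd hv (notMem_empty _), by simp⟩⟩
  obtain ⟨S, hS, hmax⟩ := exists_max_image F card hne
  obtain ⟨hS1, hS2⟩ := (hFm S).1 hS
  have hS3 := (closed_dichotomy Δ S hS1).1 hS2
  have hv : ∃ v, v ∉ S := by
    by_contra hall
    push Not at hall
    have : S = univ := eq_univ_iff_forall.2 hall
    rw [this, hcard] at hS2
    have : 0 < n ^ 2 := by positivity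
    omega
  obtain ⟨v, hv⟩ := hv
  have hcv := (closed_dichotomy Δ (comp Δ v) (comp_closed Δ v)).1 (hcon v)
  have hclosed : ∀ u w, u ∈ S ∪ comp Δ v → Conn Δ u w → w ∈ S ∪ comp Δ v := by
    intro u w hu huw
    rw [mem_union] at hu ⊢
    rcases hu with hu | hu
    · exact Or.inl (hS1 u w hu huw)
    · exact Or.inr (comp_closed Δ v u w hu huw)
  have hlt : S.card < (S ∪ comp Δ v).card := by
    refine card_lt_card ⟨subset_union_left, fun hsub => hv (hsub ?_)⟩
    exact mem_union_right _ (mem_comp.2 (conn_refl _ _))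
  have hbig : n ^ 2 ≤ 2 * (S ∪ comp Δ v).card := by
    by_contra hc
    have h1 := hmax (S ∪ comp Δ v) ((hFm _).2 ⟨hclosed, by omega⟩)
    omega
  have h2 := (closed_dichotomy Δ _ hclosed).2 hbig
  have h3 := card_union_le S (comp Δ v)
  omega

theorem big_conn [NeZero n] {Δ : Finset (Ed n)} {v v' : Vx n} (hv : Big Δ v)
    (hv' : Big Δ v') : Conn Δ v v' := by
  classical
  unfold Big at hv hv'
  have hcard : (univ : Finset (Vx n)).card = n ^ 2 := by
    rw [card_univ, Fintype.card_prod, ZMod.card]; ring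
  have h1 : ¬ Disjoint (comp Δ v) (comp Δ v') := by
    intro hd
    have h2 := card_le_card (subset_univ (comp Δ v ∪ comp Δ v'))
    rw [card_union_of_disjoint hd, hcard] at h2
    omega
  rw [Finset.not_disjoint_iff] at h1
  obtain ⟨w, hw1, hw2⟩ := h1
  exact conn_trans (mem_comp.1 hw1) (conn_symm (mem_comp.1 hw2))

theorem big_inter [NeZero n] (Δ Δ' : Finset (Ed n)) (h : 4800 * Δ.card < n ^ 2)
    (h' : 4800 * Δ'.card < n ^ 2) : ∃ v, Big Δ v ∧ Big Δ' v := by
  classical
  obtain ⟨v, hv⟩ := exists_big Δ h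
  obtain ⟨v', hv'⟩ := exists_big Δ' h'
  have hcard : (univ : Finset (Vx n)).card = n ^ 2 := by
    rw [card_univ, Fintype.card_prod, ZMod.card]; ring
  have h1 : ¬ Disjoint (comp Δ v) (comp Δ' v') := by
    intro hd
    have h2 := card_le_card (subset_univ (comp Δ v ∪ comp Δ' v'))
    unfold Big at hv hv'
    rw [card_union_of_disjoint hd, hcard] at h2
    omega
  rw [Finset.not_disjoint_iff] at h1
  obtain ⟨w, hw1, hw2⟩ := h1
  have key : ∀ (D : Finset (Ed n)) (u : Vx n), Big D u → w ∈ comp D u → Big D w := by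
    intro D u hu hw
    unfold Big at hu ⊢
    have h3 : comp D u ⊆ comp D w := by
      intro x hx
      rw [mem_comp] at hx hw ⊢
      exact conn_trans (conn_symm hw) hx
    have h4 := card_le_card h3
    omega
  exact ⟨w, key Δ v hv hw1, key Δ' v' hv' hw2⟩

theorem big_inc [NeZero n] (hn : 2 ≤ n ^ 2) {Δ : Finset (Ed n)} {v : Vx n} (h : Big Δ v) :
    ∃ i, inc v i ∉ Δ := by
  by_contra hcon
  push Not at hcon
  have h1 : comp Δ v ⊆ {v} := by
    intro w hw
    rw [mem_comp] at hw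
    obtain ⟨f, hf1, hf2⟩ := hw
    rw [mem_singleton]
    by_contra hvw
    have h2 : bd f v = 0 := by
      unfold bd
      exact sum_eq_zero fun i _ => hf1 _ (hcon i)
    rw [hf2, dl_same, dl_ne w v (fun h => hvw h.symm)] at h2
    exact absurd h2 (by decide)
  have h2 := card_le_card h1
  rw [card_singleton] at h2
  unfold Big at h
  omega

end Pool.Agent.T9h47.SC
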