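import Mathlib
import Pool.Agent.T9h47.SC.Circ
import Pool.Agent.T9h47.SC.Graph

/-!
# Quadratic systems of Cai–Fürer–Immerman type
-/

set_option autoImplicit false
set_option linter.unusedSectionVars false

namespace Pool.Agent.T9h47.SC

open Finset

/-- The value of the monomial given by an unordered pair: `none` stands for `1` and `some u` for
the unknown `u`. -/
def mon {L U : Type} [CommSemiring L] (y : U → L) : Sym2 (Option U) → L :=
  Sym2.lift ⟨fun a b => a.elim 1 y * b.elim 1 y, fun _ _ => mul_comm _ _⟩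

/-- The point `y` with coordinates in the extension `L` of `K` solves the system of quadratic
equations with coefficients `x`: the `q`-th equation is `∑ z, x (q, z) * (monomial z) = 0`. -/
def Solves {K L Q U : Type} [CommSemiring K] [CommSemiring L] [Algebra K L] [Fintype U]
    [DecidableEq U] (x : Q × Sym2 (Option U) → K) (y : U → L) : Prop :=
  ∀ q, ∑ z, algebraMap K L (x (q, z)) * mon y z = 0

/-- the renaming of equations and unknowns, acting on the coefficients of the system -/
def rename {Q U : Type} (πQ : Equiv.Perm Q) (πU : Equiv.Perm U) (p : Q × Sym2 (Option U)) :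
    Q × Sym2 (Option U) :=
  (πQ p.1, Sym2.map (Option.map πU) p.2)

/-- the group -/
abbrev Tg : Type := alternatingGroup (Fin 8)

theorem perfect_Tg : commutator Tg = ⊤ := by
  apply commutator_alternatingGroup_eq_top
  rw [Nat.card_eq_fintype_card, Fintype.card_fin]
  norm_num

/-- the flip -/
def flipT : Tg := ⟨Equiv.swap 0 4 * Equiv.swap 1 5 * Equiv.swap 2 6 * Equiv.swap 3 7, by
  rw [Equiv.Perm.mem_alternatingGroup, map_mul, map_mul, map_mul,
    Equiv.Perm.sign_swap (by decide), Equiv.Perm.sign_swap (by decide),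
    Equiv.Perm.sign_swap (by decide), Equiv.Perm.sign_swap (by decide)]
  decide⟩

/-- the class of an element of `Fin 8` -/
def par (u : Fin 8) : ZMod 2 := if u < 4 then 0 else 1

theorem par_flip (u : Fin 8) : par ((flipT : Equiv.Perm (Fin 8)) u) = par u + 1 := by
  revert u
  decide

theorem flip_ne (u : Fin 8) : (flipT : Equiv.Perm (Fin 8)) u ≠ u := by
  revert u
  decide

theorem par_zero : par 0 = 0 := rfl

/-- unknowns: `X e u` and `t v w i` -/
abbrev Unk (n : ℕ) : Type := (Ed n × Fin 8) ⊕ (Vx n × (Sl → Fin 8) × Sl)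

/-- equations -/
abbrev Eqn (n : ℕ) : Type := (Ed n × Fin 8) ⊕ (Ed n ⊕ (Vx n × (Sl → Fin 8)))

theorem card_Unk (n : ℕ) [NeZero n] : Fintype.card (Unk n) = 134217760 * n ^ 2 := by
  simp only [Unk, Ed, Vx, Sl, Fintype.card_sum, Fintype.card_prod, ZMod.card,
    Fintype.card_fin, Fintype.card_fun]
  norm_num
  ring

theorem card_Eqn (n : ℕ) [NeZero n] : Fintype.card (Eqn n) = 16777252 * n ^ 2 := by
  simp only [Eqn, Ed, Vx, Sl, Fintype.card_sum, Fintype.card_prod, ZMod.card,
    Fintype.card_fin, Fintype.card_fun]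
  norm_num
  ring

section act

variable {n : ℕ}

/-- action on local assignments -/
def actW (b : Ed n → Tg) (v : Vx n) (w : Sl → Fin 8) (i : Sl) : Fin 8 :=
  (b (inc v i) : Equiv.Perm (Fin 8)) (w i)

theorem actW_one (v : Vx n) (w : Sl → Fin 8) : actW 1 v w = w := rfl

theorem actW_mul (b b' : Ed n → Tg) (v : Vx n) (w : Sl → Fin 8) :
    actW (b * b') v w = actW b v (actW b' v w) := rfl

/-- action on unknowns -/
def actU (b : Ed n → Tg) : Unk n → Unk n :=
  Sum.map (fun p => (p.1, (b p.1 : Equiv.Perm (Fin 8)) p.2))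
    (fun p => (p.1, actW b p.1 p.2.1, p.2.2))

/-- action on equations -/
def actQ (b : Ed n → Tg) : Eqn n → Eqn n :=
  Sum.map (fun p => (p.1, (b p.1 : Equiv.Perm (Fin 8)) p.2))
    (Sum.map id (fun p => (p.1, actW b p.1 p.2)))

theorem actU_one : actU (1 : Ed n → Tg) = id := by
  funext p
  rcases p with ⟨e, u⟩ | ⟨v, w, i⟩ <;> rfl

theorem actU_mul (b b' : Ed n → Tg) : actU (b * b') = actU b ∘ actU b' := by
  funext p
  rcases p with ⟨e, u⟩ | ⟨v, w, i⟩ <;> rfl

theorem actQ_one : actQ (1 : Ed n → Tg) = id := by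
  funext p
  rcases p with ⟨e, u⟩ | e | ⟨v, w⟩ <;> rfl

theorem actQ_mul (b b' : Ed n → Tg) : actQ (b * b') = actQ b ∘ actQ b' := by
  funext p
  rcases p with ⟨e, u⟩ | e | ⟨v, w⟩ <;> rfl

/-- action on unknowns by permutations -/
def permU (b : Ed n → Tg) : Equiv.Perm (Unk n) where
  toFun := actU b
  invFun := actU b⁻¹
  left_inv p := by
    have h : (actU b⁻¹ ∘ actU b) p = p := by rw [← actU_mul, inv_mul_cancel, actU_one]; rfl
    exact h
  right_inv p := by
    have h : (actU b ∘ actU b⁻¹) p = p := by rw [← actU_mul, mul_inv_cancel, actU_one]; rfl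
    exact h

/-- action on equations by permutations -/
def permQ (b : Ed n → Tg) : Equiv.Perm (Eqn n) where
  toFun := actQ b
  invFun := actQ b⁻¹
  left_inv p := by
    have h : (actQ b⁻¹ ∘ actQ b) p = p := by rw [← actQ_mul, inv_mul_cancel, actQ_one]; rfl
    exact h
  right_inv p := by
    have h : (actQ b ∘ actQ b⁻¹) p = p := by rw [← actQ_mul, mul_inv_cancel, actQ_one]; rfl
    exact h

theorem permU_one : permU (1 : Ed n → Tg) = 1 := by
  ext p
  exact congrFun actU_one p

theorem permU_mul (b b' : Ed n → Tg) : permU (b * b') = permU b * permU b' := by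
  ext p
  exact congrFun (actU_mul b b') p

theorem permQ_one : permQ (1 : Ed n → Tg) = 1 := by
  ext p
  exact congrFun actQ_one p

theorem permQ_mul (b b' : Ed n → Tg) : permQ (b * b') = permQ b * permQ b' := by
  ext p
  exact congrFun (actQ_mul b b') p

/-- the flips along a chain -/
def flips (f : Ed n → ZMod 2) (e : Ed n) : Tg := if f e = 0 then 1 else flipT

theorem par_flips (f : Ed n → ZMod 2) (e : Ed n) (u : Fin 8) :
    par ((flips f e : Equiv.Perm (Fin 8)) u) = par u + f e := by
  unfold flips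
  have h2 : ∀ a : ZMod 2, a = 0 ∨ a = 1 := by decide
  rcases h2 (f e) with h | h
  · rw [if_pos h, h, add_zero]; rfl
  · rw [if_neg (by rw [h]; decide), h, par_flip]

theorem par_actW (f : Ed n → ZMod 2) (v : Vx n) (w : Sl → Fin 8) :
    ∑ i, par (actW (flips f) v w i) = ∑ i, par (w i) + bd f v := by
  unfold bd
  rw [← sum_add_distrib]
  exact sum_congr rfl fun i _ => par_flips f (inc v i) (w i)

end act

section inst

variable {n : ℕ} {U : Type} [Fintype U] [DecidableEq U]

/-- indicator of a monomial -/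
def ind (z₀ : Sym2 (Option U)) (z : Sym2 (Option U)) : ℤ := if z = z₀ then 1 else 0

/-- the unknown `X e u` -/
abbrev nX (ι : Unk n ↪ U) (e : Ed n) (u : Fin 8) : Option U := some (ι (Sum.inl (e, u)))

/-- the unknown `t v w i` -/
abbrev nt (ι : Unk n ↪ U) (v : Vx n) (w : Sl → Fin 8) (i : Sl) : Option U :=
  some (ι (Sum.inr (v, w, i)))

/-- the coefficients -/
def coef (ι : Unk n ↪ U) (c : Vx n → ZMod 2) : Eqn n → Sym2 (Option U) → ℤ
  | Sum.inl p, z => ind s(nX ι p.1 p.2, nX ι p.1 p.2) z - ind s(nX ι p.1 p.2, none) z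
  | Sum.inr (Sum.inl e), z => (∑ u, ind s(nX ι e u, none) z) - ind s(none, none) z
  | Sum.inr (Sum.inr p), z => if ∑ i, par (p.2 i) = c p.1 then 0 else
      (∑ i, (ind s(nt ι p.1 p.2 i, none) z - ind s(nt ι p.1 p.2 i, nX ι (inc p.1 i) (p.2 i)) z))
        - ind s(none, none) z

theorem ind_ne {z₀ z : Sym2 (Option U)} (h : z ≠ z₀) : ind z₀ z = 0 := if_neg h

theorem ind_self (z₀ : Sym2 (Option U)) : ind z₀ z₀ = 1 := if_pos rfl

/-- coefficients are `0`, `1` or `-1` -/
theorem coef_mem (ι : Unk n ↪ U) (c : Vx n → ZMod 2) (q : Eqn n) (z : Sym2 (Option U)) :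
    coef ι c q z = 0 ∨ coef ι c q z = 1 ∨ coef ι c q z = -1 := by
  rcases q with ⟨e, u⟩ | e | ⟨v, w⟩
  · show ind s(nX ι e u, nX ι e u) z - ind s(nX ι e u, none) z = 0 ∨
      ind s(nX ι e u, nX ι e u) z - ind s(nX ι e u, none) z = 1 ∨
      ind s(nX ι e u, nX ι e u) z - ind s(nX ι e u, none) z = -1
    unfold ind
    split_ifs <;> simp
  · show (∑ u, ind s(nX ι e u, none) z) - ind s(none, none) z = 0 ∨
      (∑ u, ind s(nX ι e u, none) z) - ind s(none, none) z = 1 ∨
      (∑ u, ind s(nX ι e u, none) z) - ind s(none, none) z = -1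
    by_cases h : z = s(none, none)
    · subst h
      rw [ind_self, sum_eq_zero]
      · right; right; norm_num
      · intro u _
        apply ind_ne
        simp [nX]
    · rw [ind_ne h, sub_zero]
      by_cases h2 : ∃ u, z = s(nX ι e u, none)
      · obtain ⟨u, rfl⟩ := h2
        right; left
        rw [sum_eq_single u]
        · exact ind_self _
        · intro u' _ hu'
          apply ind_ne
          intro h3
          simp [nX] at h3
          exact hu' h3.symm
        · intro h3; exact absurd (mem_univ _) h3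
      · left
        refine sum_eq_zero fun u _ => ind_ne fun h3 => h2 ⟨u, h3⟩
  · show (if ∑ i, par (w i) = c v then (0 : ℤ) else
      (∑ i, (ind s(nt ι v w i, none) z - ind s(nt ι v w i, nX ι (inc v i) (w i)) z))
        - ind s(none, none) z) = 0 ∨ (if ∑ i, par (w i) = c v then (0 : ℤ) else
      (∑ i, (ind s(nt ι v w i, none) z - ind s(nt ι v w i, nX ι (inc v i) (w i)) z))
        - ind s(none, none) z) = 1 ∨ (if ∑ i, par (w i) = c v then (0 : ℤ) else
      (∑ i, (ind s(nt ι v w i, none) z - ind s(nt ι v w i, nX ι (inc v i) (w i)) z))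
        - ind s(none, none) z) = -1
    by_cases hc : ∑ i, par (w i) = c v
    · rw [if_pos hc]; left; rfl
    · rw [if_neg hc]
      by_cases h : z = s(none, none)
      · subst h
        rw [ind_self, sum_eq_zero]
        · right; right; norm_num
        · intro i _
          rw [ind_ne, ind_ne, sub_zero]
          · simp [nt]
          · simp [nt]
      · rw [ind_ne h, sub_zero]
        by_cases h2 : ∃ i, z = s(nt ι v w i, none)
        · obtain ⟨i, rfl⟩ := h2
          right; left
          rw [sum_eq_single i]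
          · rw [ind_self, ind_ne, sub_zero]
            simp [nt, nX]
          · intro j _ hj
            rw [ind_ne, ind_ne, sub_zero]
            · simp [nt, nX]
            · intro h3
              simp [nt] at h3
              exact hj h3.symm
          · intro h3; exact absurd (mem_univ _) h3
        · by_cases h4 : ∃ i, z = s(nt ι v w i, nX ι (inc v i) (w i))
          · obtain ⟨i, rfl⟩ := h4
            right; right
            rw [sum_eq_single i]
            · rw [ind_self, ind_ne]
              · norm_num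
              · simp [nt, nX]
            · intro j _ hj
              rw [ind_ne, ind_ne, sub_zero]
              · intro h3
                simp [nt, nX] at h3
                exact hj h3.1.symm
              · simp [nt, nX]
            · intro h3; exact absurd (mem_univ _) h3
          · left
            refine sum_eq_zero fun i _ => ?_
            rw [ind_ne, ind_ne, sub_zero]
            · exact fun h3 => h4 ⟨i, h3⟩
            · exact fun h3 => h2 ⟨i, h3⟩

/-- equivariance of the indicator -/
theorem ind_map (σ : Equiv.Perm U) (a a' b b' : Option U) (ha : a' = Option.map σ a)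
    (hb : b' = Option.map σ b) (z : Sym2 (Option U)) :
    ind s(a', b') (Sym2.map (Option.map σ) z) = ind s(a, b) z := by
  subst ha
  subst hb
  unfold ind
  have hinj : Function.Injective (Sym2.map (Option.map σ) : Sym2 (Option U) → _) :=
    Sym2.map.injective (Option.map_injective σ.injective)
  have h1 : Sym2.map (Option.map σ) z = s(Option.map σ a, Option.map σ b) ↔ z = s(a, b) := by
    rw [← Sym2.map_mk]
    exact hinj.eq_iff
  simp only [h1]

/-- equivariance of the coefficients under flips -/
theorem coef_flips (ι : Unk n ↪ U) (σ : Equiv.Perm U) (f : Ed n → ZMod 2)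
    (hσ : ∀ p, σ (ι p) = ι (actU (flips f) p)) (c : Vx n → ZMod 2) (q : Eqn n)
    (z : Sym2 (Option U)) :
    coef ι c (actQ (flips f) q) (Sym2.map (Option.map σ) z) =
      coef ι (fun v => c v + bd f v) q z := by
  have hX : ∀ e u, nX ι e ((flips f e : Equiv.Perm (Fin 8)) u) = Option.map σ (nX ι e u) := by
    intro e u
    show _ = some (σ (ι (Sum.inl (e, u))))
    rw [hσ]; rfl
  have ht : ∀ v w i, nt ι v (actW (flips f) v w) i = Option.map σ (nt ι v w i) := by
    intro v w i
    show _ = some (σ (ι (Sum.inr (v, w, i))))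
    rw [hσ]; rfl
  rcases q with ⟨e, u⟩ | e | ⟨v, w⟩
  · show ind s(nX ι e ((flips f e : Equiv.Perm (Fin 8)) u),
        nX ι e ((flips f e : Equiv.Perm (Fin 8)) u)) (Sym2.map (Option.map σ) z) -
        ind s(nX ι e ((flips f e : Equiv.Perm (Fin 8)) u), none) (Sym2.map (Option.map σ) z) =
      ind s(nX ι e u, nX ι e u) z - ind s(nX ι e u, none) z
    rw [ind_map σ (nX ι e u) _ (nX ι e u) _ (hX e u) (hX e u),
      ind_map σ (nX ι e u) _ none none (hX e u) rfl]
  · show (∑ u, ind s(nX ι e u, none) _) - ind s(none, none) _ =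
      (∑ u, ind s(nX ι e u, none) z) - ind s(none, none) z
    rw [ind_map σ none none none none rfl rfl]
    congr 1
    rw [← Equiv.sum_comp (flips f e : Equiv.Perm (Fin 8))]
    exact sum_congr rfl fun u _ => ind_map σ (nX ι e u) _ none none (hX e u) rfl z
  · show (if ∑ i, par (actW (flips f) v w i) = c v then (0 : ℤ) else
      (∑ i, (ind s(nt ι v (actW (flips f) v w) i, none) (Sym2.map (Option.map σ) z) -
        ind s(nt ι v (actW (flips f) v w) i, nX ι (inc v i) (actW (flips f) v w i))
          (Sym2.map (Option.map σ) z))) - ind s(none, none) (Sym2.map (Option.map σ) z)) =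
      (if ∑ i, par (w i) = c v + bd f v then (0 : ℤ) else
      (∑ i, (ind s(nt ι v w i, none) z - ind s(nt ι v w i, nX ι (inc v i) (w i)) z))
        - ind s(none, none) z)
    rw [par_actW, ind_map σ none none none none rfl rfl]
    have h1 : ∀ a b d : ZMod 2, (a + b = d ↔ a = d + b) := by decide
    simp only [h1 _ (bd f v) (c v)]
    congr 2
    refine sum_congr rfl fun i _ => ?_
    rw [ind_map σ (nt ι v w i) _ none none (ht v w i) rfl,
      ind_map σ (nt ι v w i) _ (nX ι (inc v i) (w i)) (nX ι (inc v i) (actW (flips f) v w i))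
        (ht v w i) (hX _ _)]

/-- coefficients that depend on the twist -/
theorem coef_diff (ι : Unk n ↪ U) (c c' : Vx n → ZMod 2) (q : Eqn n) (z : Sym2 (Option U))
    (h : coef ι c q z ≠ coef ι c' q z) : ∃ v w, q = Sum.inr (Sum.inr (v, w)) ∧ c v ≠ c' v := by
  rcases q with ⟨e, u⟩ | e | ⟨v, w⟩
  · exact absurd rfl h
  · exact absurd rfl h
  · refine ⟨v, w, rfl, ?_⟩
    intro hc
    apply h
    show (if ∑ i, par (w i) = c v then (0 : ℤ) else _) = (if ∑ i, par (w i) = c' v then (0 : ℤ)
      else _)
    rw [hc]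

/-! ### Evaluation -/

variable {L : Type} [Field L]

/-- evaluation of an equation -/
def ev (y : U → L) (p : Sym2 (Option U) → ℤ) : L := ∑ z, (p z : L) * mon y z

theorem ev_ind (y : U → L) (z₀ : Sym2 (Option U)) : ev y (ind z₀) = mon y z₀ := by
  unfold ev ind
  rw [sum_eq_single z₀]
  · rw [if_pos rfl, Int.cast_one, one_mul]
  · intro z _ hz
    rw [if_neg hz, Int.cast_zero, zero_mul]
  · intro h; exact absurd (mem_univ _) h

theorem ev_sub (y : U → L) (p p' : Sym2 (Option U) → ℤ) :
    ev y (fun z => p z - p' z) = ev y p - ev y p' := by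
  unfold ev
  rw [← sum_sub_distrib]
  refine sum_congr rfl fun z _ => ?_
  rw [Int.cast_sub, sub_mul]

theorem ev_sum {J : Type} [Fintype J] (y : U → L) (p : J → Sym2 (Option U) → ℤ) :
    ev y (fun z => ∑ j, p j z) = ∑ j, ev y (p j) := by
  unfold ev
  rw [sum_comm]
  refine sum_congr rfl fun z _ => ?_
  rw [Int.cast_sum, sum_mul]

theorem ev_zero (y : U → L) : ev y (fun _ => 0) = 0 := by
  unfold ev
  refine sum_eq_zero fun z _ => ?_
  rw [Int.cast_zero, zero_mul]

theorem ev_A (ι : Unk n ↪ U) (c : Vx n → ZMod 2) (y : U → L) (e : Ed n) (u : Fin 8) :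
    ev y (coef ι c (Sum.inl (e, u))) =
      y (ι (Sum.inl (e, u))) * y (ι (Sum.inl (e, u))) - y (ι (Sum.inl (e, u))) * 1 := by
  have h : coef ι c (Sum.inl (e, u)) =
    fun z => ind s(nX ι e u, nX ι e u) z - ind s(nX ι e u, none) z := rfl
  rw [h, ev_sub, ev_ind, ev_ind]
  rfl

theorem ev_S (ι : Unk n ↪ U) (c : Vx n → ZMod 2) (y : U → L) (e : Ed n) :
    ev y (coef ι c (Sum.inr (Sum.inl e))) =
      (∑ u, y (ι (Sum.inl (e, u))) * 1) - 1 * 1 := by
  have h : coef ι c (Sum.inr (Sum.inl e)) =
    fun z => (∑ u, ind s(nX ι e u, none) z) - ind s(none, none) z := rfl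
  rw [h, ev_sub, ev_ind, ev_sum]
  simp only [ev_ind]
  rfl

theorem ev_C (ι : Unk n ↪ U) (c : Vx n → ZMod 2) (y : U → L) (v : Vx n) (w : Sl → Fin 8)
    (h : ∑ i, par (w i) ≠ c v) :
    ev y (coef ι c (Sum.inr (Sum.inr (v, w)))) =
      (∑ i, (y (ι (Sum.inr (v, w, i))) * 1 -
        y (ι (Sum.inr (v, w, i))) * y (ι (Sum.inl (inc v i, w i))))) - 1 * 1 := by
  have h : coef ι c (Sum.inr (Sum.inr (v, w))) =
    fun z => (∑ i, (ind s(nt ι v w i, none) z - ind s(nt ι v w i, nX ι (inc v i) (w i)) z))
        - ind s(none, none) z := by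
    funext z
    exact if_neg h
  rw [h, ev_sub, ev_ind, ev_sum]
  simp only [ev_sub, ev_ind]
  rfl

theorem ev_C0 (ι : Unk n ↪ U) (c : Vx n → ZMod 2) (y : U → L) (v : Vx n) (w : Sl → Fin 8)
    (h : ∑ i, par (w i) = c v) :
    ev y (coef ι c (Sum.inr (Sum.inr (v, w)))) = 0 := by
  have h : coef ι c (Sum.inr (Sum.inr (v, w))) = fun z => 0 := by
    funext z
    exact if_pos h
  rw [h, ev_zero]

/-- The twisted system has no solution. -/
theorem no_sol [NeZero n] (ι : Unk n ↪ U) (v₀ : Vx n) (y : U → L)
    (h : ∀ q, ev y (coef ι (dl v₀) q) = 0) : False := by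
  have h1 : ∀ e : Ed n, ∃ u : Fin 8, y (ι (Sum.inl (e, u))) = 1 := by
    intro e
    have h2 := h (Sum.inr (Sum.inl e))
    rw [ev_S] at h2
    by_contra hcon
    push Not at hcon
    have h3 : ∀ u : Fin 8, y (ι (Sum.inl (e, u))) = 0 := by
      intro u
      have h4 := h (Sum.inl (e, u))
      rw [ev_A, ← mul_sub] at h4
      rcases mul_eq_zero.1 h4 with h5 | h5
      · exact h5
      · exact absurd (sub_eq_zero.1 h5) (hcon u)
    rw [sum_eq_zero (fun u _ => by rw [h3 u, zero_mul]), zero_sub, mul_one, neg_eq_zero] at h2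
    exact one_ne_zero h2
  choose u hu using h1
  have h2 : ∀ v, bd (fun e => par (u e)) v = dl v₀ v := by
    intro v
    by_contra hcon
    have h3 := h (Sum.inr (Sum.inr (v, fun i => u (inc v i))))
    rw [ev_C ι _ y v (fun i => u (inc v i)) hcon, sum_eq_zero, zero_sub, mul_one,
      neg_eq_zero] at h3
    · exact one_ne_zero h3
    · intro i _
      rw [hu, sub_self]
  have h3 := sum_bd (fun e => par (u e))
  rw [sum_congr rfl (fun v _ => h2 v), sum_dl] at h3
  exact absurd h3 (by decide)

/-- The untwisted system has a solution in `{0, 1}`. -/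
theorem sol (ι : Unk n ↪ U) : ∃ y : U → L, (∀ a, y a = 0 ∨ y a = 1) ∧
    ∀ q, ev y (coef ι 0 q) = 0 := by
  classical
  obtain ⟨y₀, hy₀⟩ : ∃ y₀ : Unk n → L, y₀ = fun p => match p with
    | Sum.inl (_, u) => if u = 0 then 1 else 0
    | Sum.inr (_, w, i) => if h : ∃ j, w j ≠ 0 then (if i = h.choose then 1 else 0) else 0 :=
    ⟨_, rfl⟩
  have hX : ∀ e u, y₀ (Sum.inl (e, u)) = if u = 0 then 1 else 0 := by
    intro e u; rw [hy₀]
  have hy01 : ∀ p, y₀ p = 0 ∨ y₀ p = 1 := by
    intro p
    rw [hy₀]
    rcases p with ⟨e, u⟩ | ⟨v, w, i⟩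
    · show (if u = 0 then (1 : L) else 0) = 0 ∨ (if u = 0 then (1 : L) else 0) = 1
      split_ifs
      · right; rfl
      · left; rfl
    · show (if h : ∃ j, w j ≠ 0 then (if i = h.choose then (1 : L) else 0) else 0) = 0 ∨
        (if h : ∃ j, w j ≠ 0 then (if i = h.choose then (1 : L) else 0) else 0) = 1
      split_ifs
      · right; rfl
      · left; rfl
      · left; rfl
  refine ⟨Function.extend ι y₀ 0, ?_, ?_⟩
  · intro a
    by_cases ha : ∃ p, ι p = a
    · obtain ⟨p, rfl⟩ := ha
      rw [ι.injective.extend_apply]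
      exact hy01 p
    · rw [Function.extend_apply' _ _ _ ha]
      left; rfl
  · intro q
    rcases q with ⟨e, u⟩ | e | ⟨v, w⟩
    · rw [ev_A, ι.injective.extend_apply, hX]
      split_ifs <;> ring
    · rw [ev_S]
      simp only [ι.injective.extend_apply, hX]
      rw [sum_eq_single 0]
      · rw [if_pos rfl, sub_self]
      · intro u _ hu
        rw [if_neg hu, zero_mul]
      · intro h; exact absurd (mem_univ _) h
    · by_cases hc : ∑ i, par (w i) = (0 : Vx n → ZMod 2) v
      · exact ev_C0 ι _ _ v w hc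
      · rw [ev_C ι _ _ v w hc]
        simp only [ι.injective.extend_apply, hX]
        have hw : ∃ j, w j ≠ 0 := by
          by_contra hcon
          push Not at hcon
          apply hc
          refine sum_eq_zero fun i _ => ?_
          rw [hcon i, par_zero]
        have ht : ∀ i, y₀ (Sum.inr (v, w, i)) = if i = hw.choose then 1 else 0 := by
          intro i
          rw [hy₀]
          exact dif_pos hw
        rw [sum_eq_single hw.choose]
        · rw [ht, if_pos rfl, if_neg hw.choose_spec]
          ring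
        · intro i _ hi
          rw [ht, if_neg hi]
          ring
        · intro h; exact absurd (mem_univ _) h

end inst

end Pool.Agent.T9h47.SC
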