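import Mathlib
import Pool.Agent.T9h47.SC.Inst

/-!
# Symmetric circuits for solvability of quadratic systems
-/

set_option autoImplicit false
set_option linter.unusedSectionVars false

namespace Pool.Agent.T9h47.SC

open Finset

/-- The circuit is symmetric under the renamings of the equations in `R` and of the unknowns in
`H`: each such renaming extends to an automorphism of the circuit. -/
def SymmetricOn {K Q U : Type} (C : Circuit K (Q × Sym2 (Option U))) (R : Finset Q)
    (H : Finset U) : Prop :=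
  ∀ (πQ : Equiv.Perm Q) (πU : Equiv.Perm U), (∀ q, q ∉ R → πQ q = q) → (∀ u, u ∉ H → πU u = u) →
    ∃ α, C.IsAut (rename πQ πU) α

/-- The circuit outputs `1` on the systems with a solution in `{0, 1}`, and does not output `1` on
the systems without a solution in any extension field, both for systems with coefficients in
`{0, 1, -1}`. -/
def Separates {K Q U : Type} [Field K] [Fintype U] [DecidableEq U]
    (C : Circuit K (Q × Sym2 (Option U))) : Prop :=
  ∀ x : Q × Sym2 (Option U) → K, (∀ i, x i = 0 ∨ x i = 1 ∨ x i = -1) →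
    ((∃ y : U → K, (∀ u, y u = 0 ∨ y u = 1) ∧ Solves x y) → C.val x C.out = 1) ∧
    ((∀ (L : Type) [Field L] [Algebra K L] (y : U → L), ¬ Solves x y) → C.val x C.out ≠ 1)

section

variable {K Q U : Type} [Field K] [Fintype U] [DecidableEq U] {n : ℕ}

/-- the instances -/
noncomputable def inst (κ : Eqn n ↪ Q) (ι : Unk n ↪ U) (c : Vx n → ZMod 2)
    (p : Q × Sym2 (Option U)) : ℤ :=
  Function.extend κ (coef ι c) 0 p.1 p.2

theorem inst_apply (κ : Eqn n ↪ Q) (ι : Unk n ↪ U) (c : Vx n → ZMod 2) (q : Eqn n)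
    (z : Sym2 (Option U)) : inst κ ι c (κ q, z) = coef ι c q z := by
  unfold inst
  rw [κ.injective.extend_apply]

theorem inst_apply' (κ : Eqn n ↪ Q) (ι : Unk n ↪ U) (c : Vx n → ZMod 2) (q : Q)
    (hq : ¬ ∃ p, κ p = q) (z : Sym2 (Option U)) : inst κ ι c (q, z) = 0 := by
  unfold inst
  rw [Function.extend_apply' _ _ _ hq]
  rfl

theorem inst_mem (κ : Eqn n ↪ Q) (ι : Unk n ↪ U) (c : Vx n → ZMod 2)
    (p : Q × Sym2 (Option U)) : inst κ ι c p = 0 ∨ inst κ ι c p = 1 ∨ inst κ ι c p = -1 := by
  rcases p with ⟨q, z⟩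
  by_cases hq : ∃ p, κ p = q
  · obtain ⟨p, rfl⟩ := hq
    rw [inst_apply]
    exact coef_mem ι c p z
  · rw [inst_apply' κ ι c q hq]
    left; rfl

/-- the action on coordinates -/
noncomputable def act (κ : Eqn n ↪ Q) (ι : Unk n ↪ U) (b : Ed n → Tg) :
    Q × Sym2 (Option U) → Q × Sym2 (Option U) :=
  rename (Equiv.Perm.viaEmbeddingHom κ (permQ b)) (Equiv.Perm.viaEmbeddingHom ι (permU b))

theorem act_one (κ : Eqn n ↪ Q) (ι : Unk n ↪ U) : act κ ι 1 = id := by
  funext p
  unfold act rename
  rw [permQ_one, permU_one, map_one, map_one]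
  rcases p with ⟨q, z⟩
  show ((1 : Equiv.Perm Q) q, Sym2.map (Option.map (1 : Equiv.Perm U)) z) = (q, z)
  rw [Equiv.Perm.coe_one, Equiv.Perm.coe_one, Option.map_id, Sym2.map_id]
  rfl

theorem act_mul (κ : Eqn n ↪ Q) (ι : Unk n ↪ U) (b b' : Ed n → Tg) :
    act κ ι (b * b') = act κ ι b ∘ act κ ι b' := by
  funext p
  unfold act rename
  rw [permQ_mul, permU_mul, map_mul, map_mul]
  rcases p with ⟨q, z⟩
  show ((_ * _ : Equiv.Perm Q) q, Sym2.map (Option.map (_ * _ : Equiv.Perm U)) z) =
    (_, Sym2.map (Option.map _) (Sym2.map (Option.map _) z))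
  rw [Sym2.map_map, Option.map_comp_map]
  rfl

theorem inst_act (κ : Eqn n ↪ Q) (ι : Unk n ↪ U) (c : Vx n → ZMod 2) (f : Ed n → ZMod 2) :
    inst κ ι c ∘ act κ ι (flips f) = inst κ ι (fun v => c v + bd f v) := by
  funext p
  rcases p with ⟨q, z⟩
  show inst κ ι c ((Equiv.Perm.viaEmbeddingHom κ (permQ (flips f))) q, _) = _
  rw [Equiv.Perm.viaEmbeddingHom_apply]
  by_cases hq : ∃ p, κ p = q
  · obtain ⟨p, rfl⟩ := hq
    rw [Equiv.Perm.viaEmbedding_apply, inst_apply, inst_apply]
    refine coef_flips ι _ f ?_ c p z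
    intro p
    rw [Equiv.Perm.viaEmbeddingHom_apply, Equiv.Perm.viaEmbedding_apply]
    rfl
  · have hq' : q ∉ Set.range κ := fun h => hq h
    rw [Equiv.Perm.viaEmbedding_apply_of_notMem _ _ _ hq', inst_apply' κ ι _ q hq,
      inst_apply' κ ι _ q hq]

end

theorem lower_aux {K Q U : Type} [Field K] [Fintype U] [DecidableEq U]
    (C : Circuit K (Q × Sym2 (Option U))) (R : Finset Q) (H : Finset U)
    (hS : SymmetricOn C R H) (hC : Separates C) (r n : ℕ) [NeZero n] (hn2 : 2 ≤ n ^ 2)
    (hrn : 9600 * r < n ^ 2) (κ : Eqn n ↪ Q)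
    (hκ : ∀ q, κ q ∈ R) (ι : Unk n ↪ U) (hι : ∀ u, ι u ∈ H) :
    2 ^ r ≤ @Fintype.card C.Gate C.fin := by
  classical
  by_contra hcon
  rw [not_le] at hcon
  have hrange : ∀ c : Vx n → ZMod 2, ∀ i, ((inst κ ι c i : ℤ) : K) = 0 ∨
      ((inst κ ι c i : ℤ) : K) = 1 ∨ ((inst κ ι c i : ℤ) : K) = -1 := by
    intro c i
    rcases inst_mem κ ι c i with h | h | h <;> rw [h]
    · left; exact Int.cast_zero
    · right; left; exact Int.cast_one
    · right; right; rw [Int.cast_neg, Int.cast_one]
  have hev : ∀ (L : Type) [Field L] [Algebra K L] (c : Vx n → ZMod 2) (y : U → L)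
      (q : Q), ∑ z, algebraMap K L ((inst κ ι c (q, z) : ℤ) : K) * mon y z =
        ev y (fun z => inst κ ι c (q, z)) := by
    intro L _ _ c y q
    unfold ev
    refine sum_congr rfl fun z _ => ?_
    rw [map_intCast]
  obtain ⟨v, hv⟩ := indist C perfect_Tg (act κ ι) (act_one κ ι) (act_mul κ ι) (by
      intro b
      refine hS _ _ ?_ ?_
      · intro q hq
        have hq' : q ∉ Set.range κ := by
          rintro ⟨p, rfl⟩; exact hq (hκ p)
        rw [Equiv.Perm.viaEmbeddingHom_apply,
          Equiv.Perm.viaEmbedding_apply_of_notMem _ _ _ hq']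
      · intro u hu
        have hu' : u ∉ Set.range ι := by
          rintro ⟨p, rfl⟩; exact hu (hι p)
        rw [Equiv.Perm.viaEmbeddingHom_apply,
          Equiv.Perm.viaEmbedding_apply_of_notMem _ _ _ hu'])
    (fun i => ((inst κ ι 0 i : ℤ) : K)) (fun v i => ((inst κ ι (dl v) i : ℤ) : K)) r hcon Big
    (by
      intro Δ hΔ v v' hv hv'
      obtain ⟨f, hf1, hf2⟩ := big_conn (Δ := Δ) hv hv'
      refine ⟨flips f, ?_, ?_⟩
      · intro e he
        unfold flips
        rw [if_pos (hf1 e he)]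
      · have h1 := inst_act κ ι (dl v') f
        have h2 : (fun w => dl v' w + bd f w) = dl v := by
          funext w
          rw [hf2]
          have h3 : ∀ a b : ZMod 2, a + (b + a) = b := by decide
          exact h3 _ _
        rw [h2] at h1
        funext i
        show ((inst κ ι (dl v') (act κ ι (flips f) i) : ℤ) : K) = _
        rw [← h1]
        rfl)
    (by
      intro Δ Δ' hΔ hΔ'
      exact big_inter Δ Δ' (by omega) (by omega))
    (by
      intro Δ _ v hv i hi
      obtain ⟨j, hj⟩ := big_inc hn2 hv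
      refine ⟨inc v j, hj, flipT, ?_⟩
      have hi' : inst κ ι (dl v) i ≠ inst κ ι 0 i := fun h => hi (by
        show ((inst κ ι (dl v) i : ℤ) : K) = ((inst κ ι 0 i : ℤ) : K)
        rw [h])
      rcases i with ⟨q, z⟩
      by_cases hq : ∃ p, κ p = q
      · obtain ⟨p, rfl⟩ := hq
        rw [inst_apply, inst_apply] at hi'
        obtain ⟨v', w, rfl, hne⟩ := coef_diff ι _ _ _ _ hi'
        have hvv : v' = v := by
          by_contra h
          rw [dl_ne _ _ h] at hne
          exact hne rfl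
        subst hvv
        intro heq
        have h1 := congrArg Prod.fst heq
        have h2 : Equiv.Perm.viaEmbeddingHom κ (permQ (Pi.mulSingle (inc v' j) flipT))
            (κ (Sum.inr (Sum.inr (v', w)))) = κ (Sum.inr (Sum.inr (v', w))) := h1
        rw [Equiv.Perm.viaEmbeddingHom_apply, Equiv.Perm.viaEmbedding_apply] at h2
        have h3 : (Sum.inr (Sum.inr (v', actW (Pi.mulSingle (inc v' j) flipT) v' w)) :
          Eqn n) = Sum.inr (Sum.inr (v', w)) := κ.injective h2
        have h4 : actW (Pi.mulSingle (inc v' j) flipT) v' w = w :=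
          (Prod.ext_iff.1 (Sum.inr.inj (Sum.inr.inj h3))).2
        have h5 := congrFun h4 j
        have h6 : actW (Pi.mulSingle (inc v' j) flipT) v' w j =
            (flipT : Equiv.Perm (Fin 8)) (w j) := by
          unfold actW
          rw [Pi.mulSingle_eq_same]
        rw [h6] at h5
        exact flip_ne _ h5
      · rw [inst_apply' κ ι _ q hq, inst_apply' κ ι _ q hq] at hi'
        exact absurd rfl hi')
  have h1 := (hC (fun i => ((inst κ ι 0 i : ℤ) : K)) (hrange 0)).1 (by
    obtain ⟨y, hy1, hy2⟩ := sol (L := K) (n := n) ι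
    refine ⟨y, hy1, ?_⟩
    intro q
    rw [hev K 0 y q]
    by_cases hq : ∃ p, κ p = q
    · obtain ⟨p, rfl⟩ := hq
      have h2 : (fun z => inst κ ι 0 (κ p, z)) = coef ι 0 p := by
        funext z; exact inst_apply κ ι 0 p z
      rw [h2]
      exact hy2 p
    · have h2 : (fun z => inst κ ι 0 (q, z)) = fun _ => 0 := by
        funext z; exact inst_apply' κ ι 0 q hq z
      rw [h2, ev_zero])
  refine (hC (fun i => ((inst κ ι (dl v) i : ℤ) : K)) (hrange (dl v))).2 ?_ (hv.trans h1)
  intro L _ _ y hy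
  refine no_sol ι v y ?_
  intro q
  have h2 := hy (κ q)
  have h3 : ∑ z, algebraMap K L ((inst κ ι (dl v) (κ q, z) : ℤ) : K) * mon y z = 0 := h2
  rw [hev L (dl v) y (κ q)] at h3
  have h4 : (fun z => inst κ ι (dl v) (κ q, z)) = coef ι (dl v) q := by
    funext z; exact inst_apply κ ι (dl v) q z
  rwa [h4] at h3

/-- **Symmetric circuits need exponential size to decide solvability of quadratic systems.** -/
theorem lower_bound {K Q U : Type} [Field K] [Fintype U] [DecidableEq U]
    (C : Circuit K (Q × Sym2 (Option U))) (R : Finset Q) (H : Finset U)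
    (hS : SymmetricOn C R H) (hC : Separates C) (r : ℕ) (hR : 10 ^ 13 * r ≤ R.card)
    (hH : 10 ^ 13 * r ≤ H.card) : 2 ^ r ≤ @Fintype.card C.Gate C.fin := by
  classical
  let _ := C.fin
  rcases Nat.eq_zero_or_pos r with rfl | hr
  · rw [pow_zero]
    exact Fintype.card_pos_iff.2 ⟨C.out⟩
  · obtain ⟨n, hn⟩ : ∃ n, n = Nat.sqrt (9600 * r) + 1 := ⟨_, rfl⟩
    have h1 : 9600 * r < n ^ 2 := by
      rw [hn]
      have h := Nat.lt_succ_sqrt (9600 * r)
      rw [Nat.succ_eq_add_one] at h
      nlinarith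
    have h2 : n ^ 2 ≤ 38400 * r := by
      have h3 := Nat.sqrt_le (9600 * r)
      have h4 : 1 ≤ Nat.sqrt (9600 * r) := by
        rw [Nat.one_le_iff_ne_zero, ne_eq, Nat.sqrt_eq_zero]
        omega
      rw [hn]
      nlinarith
    have hn0 : NeZero n := ⟨by rw [hn]; omega⟩
    have hκ : Fintype.card (Eqn n) ≤ Fintype.card R := by
      rw [card_Eqn, Fintype.card_coe]
      omega
    have hι : Fintype.card (Unk n) ≤ Fintype.card H := by
      rw [card_Unk, Fintype.card_coe]
      omega
    obtain ⟨κ⟩ := Function.Embedding.nonempty_of_card_le hκ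
    obtain ⟨ι⟩ := Function.Embedding.nonempty_of_card_le hι
    exact lower_aux C R H hS hC r n (by omega) h1
      (κ.trans (Function.Embedding.subtype _)) (fun q => (κ q).2)
      (ι.trans (Function.Embedding.subtype _)) (fun u => (ι u).2)

end Pool.Agent.T9h47.SC
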