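import Mathlib

/-!
# Connectivity in toroidal grids after removing few edges
-/

set_option autoImplicit false
set_option linter.unusedSectionVars false

namespace Pool.Agent.T9h47.SC

open Finset

/-- vertices of the toroidal grid -/
abbrev Vx (n : ℕ) : Type := ZMod n × ZMod n

/-- edges of the toroidal grid: `(v, false)` goes from `v` to `v + (1, 0)`, `(v, true)` to
`v + (0, 1)` -/
abbrev Ed (n : ℕ) : Type := Vx n × Bool

/-- the four edges at a vertex -/
def inc {n : ℕ} (v : Vx n) (i : Fin 4) : Ed n :=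
  if i = 0 then (v, false) else if i = 1 then (v, true) else
    if i = 2 then ((v.1 - 1, v.2), false) else ((v.1, v.2 - 1), true)

/-- boundary modulo two -/
def bd {n : ℕ} (f : Ed n → ZMod 2) (v : Vx n) : ZMod 2 := ∑ i, f (inc v i)

theorem bd_eq {n : ℕ} (f : Ed n → ZMod 2) (v : Vx n) :
    bd f v = f (v, false) + f (v, true) + f ((v.1 - 1, v.2), false) + f ((v.1, v.2 - 1), true) := by
  unfold bd
  rw [Fin.sum_univ_four]
  rfl

theorem bd_add {n : ℕ} (f g : Ed n → ZMod 2) (v : Vx n) : bd (f + g) v = bd f v + bd g v := by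
  unfold bd
  rw [← sum_add_distrib]
  rfl

theorem z2_add_self (a : ZMod 2) : a + a = 0 := CharTwo.add_self_eq_zero a

theorem sum_bd {n : ℕ} [NeZero n] (f : Ed n → ZMod 2) : ∑ v, bd f v = 0 := by
  have h1 : ∑ v : Vx n, f ((v.1 - 1, v.2), false) = ∑ v : Vx n, f (v, false) := by
    refine Fintype.sum_equiv ((Equiv.subRight (1 : ZMod n)).prodCongr (Equiv.refl _)) _ _ ?_
    intro v; rfl
  have h2 : ∑ v : Vx n, f ((v.1, v.2 - 1), true) = ∑ v : Vx n, f (v, true) := by
    refine Fintype.sum_equiv ((Equiv.refl _).prodCongr (Equiv.subRight (1 : ZMod n))) _ _ ?_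
    intro v; rfl
  rw [sum_congr rfl (fun v _ => bd_eq f v), sum_add_distrib, sum_add_distrib, sum_add_distrib,
    h1, h2]
  have h3 : ∀ a b : ZMod 2, a + b + a + b = 0 := by decide
  exact h3 _ _

/-- indicator of a vertex -/
def dl {n : ℕ} (v : Vx n) (u : Vx n) : ZMod 2 := if u = v then 1 else 0

theorem dl_same {n : ℕ} (v : Vx n) : dl v v = 1 := if_pos rfl

theorem dl_ne {n : ℕ} (v u : Vx n) (h : u ≠ v) : dl v u = 0 := if_neg h

theorem sum_dl {n : ℕ} [NeZero n] (v : Vx n) : ∑ u, dl v u = 1 := by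
  unfold dl
  rw [sum_ite_eq' univ v]
  exact if_pos (mem_univ _)

/-- `v` and `w` are joined by a chain avoiding `Δ` -/
def Conn {n : ℕ} (Δ : Finset (Ed n)) (v w : Vx n) : Prop :=
  ∃ f : Ed n → ZMod 2, (∀ e ∈ Δ, f e = 0) ∧ ∀ u, bd f u = dl v u + dl w u

variable {n : ℕ}

theorem conn_refl (Δ : Finset (Ed n)) (v : Vx n) : Conn Δ v v := by
  refine ⟨0, fun _ _ => rfl, fun u => ?_⟩
  rw [z2_add_self]
  unfold bd
  exact sum_eq_zero fun _ _ => rfl

theorem conn_symm {Δ : Finset (Ed n)} {v w : Vx n} (h : Conn Δ v w) : Conn Δ w v := by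
  obtain ⟨f, h1, h2⟩ := h
  exact ⟨f, h1, fun u => by rw [h2, add_comm]⟩

theorem conn_trans {Δ : Finset (Ed n)} {u v w : Vx n} (h : Conn Δ u v) (h' : Conn Δ v w) :
    Conn Δ u w := by
  obtain ⟨f, h1, h2⟩ := h
  obtain ⟨g, h3, h4⟩ := h'
  refine ⟨f + g, fun e he => ?_, fun x => ?_⟩
  · show f e + g e = 0
    rw [h1 e he, h3 e he, add_zero]
  · rw [bd_add, h2, h4]
    have h5 : ∀ a b c : ZMod 2, a + b + (b + c) = a + c := by decide
    exact h5 _ _ _

theorem conn_row_edge {Δ : Finset (Ed n)} (v : Vx n) (h : (v, false) ∉ Δ) :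
    Conn Δ v (v.1 + 1, v.2) := by
  refine ⟨fun e => if e = (v, false) then 1 else 0, ?_, ?_⟩
  · intro e he
    have : e ≠ (v, false) := by rintro rfl; exact h he
    exact if_neg this
  · intro u
    rw [bd_eq]
    have h1 : ((u, true) : Ed n) ≠ (v, false) := fun h => by cases (Prod.ext_iff.1 h).2
    have h2 : (((u.1, u.2 - 1), true) : Ed n) ≠ (v, false) :=
      fun h => by cases (Prod.ext_iff.1 h).2
    show (if ((u, false) : Ed n) = (v, false) then (1 : ZMod 2) else 0) +
      (if ((u, true) : Ed n) = (v, false) then 1 else 0) +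
      (if (((u.1 - 1, u.2), false) : Ed n) = (v, false) then 1 else 0) +
      (if (((u.1, u.2 - 1), true) : Ed n) = (v, false) then 1 else 0) = _
    rw [if_neg h1, if_neg h2, add_zero, add_zero]
    have h3 : ((u, false) : Ed n) = (v, false) ↔ u = v :=
      ⟨fun h => (Prod.ext_iff.1 h).1, fun h => by rw [h]⟩
    have h4 : (((u.1 - 1, u.2), false) : Ed n) = (v, false) ↔ u = (v.1 + 1, v.2) := by
      constructor
      · intro h
        have h5 := (Prod.ext_iff.1 h).1
        have h6 := Prod.ext_iff.1 h5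
        have h7 : u.1 - 1 = v.1 := h6.1
        exact Prod.ext (by show u.1 = v.1 + 1; rw [← h7]; ring) h6.2
      · rintro rfl
        show (((v.1 + 1 - 1, v.2), false) : Ed n) = (v, false)
        rw [add_sub_cancel_right]
    unfold dl
    simp only [h3, h4]

theorem conn_col_edge {Δ : Finset (Ed n)} (v : Vx n) (h : (v, true) ∉ Δ) :
    Conn Δ v (v.1, v.2 + 1) := by
  refine ⟨fun e => if e = (v, true) then 1 else 0, ?_, ?_⟩
  · intro e he
    have : e ≠ (v, true) := by rintro rfl; exact h he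
    exact if_neg this
  · intro u
    rw [bd_eq]
    have h1 : ((u, false) : Ed n) ≠ (v, true) := fun h => by cases (Prod.ext_iff.1 h).2
    have h2 : (((u.1 - 1, u.2), false) : Ed n) ≠ (v, true) :=
      fun h => by cases (Prod.ext_iff.1 h).2
    show (if ((u, false) : Ed n) = (v, true) then (1 : ZMod 2) else 0) +
      (if ((u, true) : Ed n) = (v, true) then 1 else 0) +
      (if (((u.1 - 1, u.2), false) : Ed n) = (v, true) then 1 else 0) +
      (if (((u.1, u.2 - 1), true) : Ed n) = (v, true) then 1 else 0) = _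
    rw [if_neg h1, if_neg h2, add_zero, zero_add]
    have h3 : ((u, true) : Ed n) = (v, true) ↔ u = v :=
      ⟨fun h => (Prod.ext_iff.1 h).1, fun h => by rw [h]⟩
    have h4 : (((u.1, u.2 - 1), true) : Ed n) = (v, true) ↔ u = (v.1, v.2 + 1) := by
      constructor
      · intro h
        have h5 := (Prod.ext_iff.1 h).1
        have h6 := Prod.ext_iff.1 h5
        have h7 : u.2 - 1 = v.2 := h6.2
        exact Prod.ext h6.1 (by show u.2 = v.2 + 1; rw [← h7]; ring)
      · rintro rfl
        show (((v.1, v.2 + 1 - 1), true) : Ed n) = (v, true)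
        rw [add_sub_cancel_right]
    unfold dl
    simp only [h3, h4]

/-- the row `j` avoids `Δ` -/
def RowOK (Δ : Finset (Ed n)) (j : ZMod n) : Prop := ∀ a, ((a, j), false) ∉ Δ

/-- the column `a` avoids `Δ` -/
def ColOK (Δ : Finset (Ed n)) (a : ZMod n) : Prop := ∀ j, ((a, j), true) ∉ Δ

theorem conn_row {Δ : Finset (Ed n)} [NeZero n] {j : ZMod n} (h : RowOK Δ j) (a a' : ZMod n) :
    Conn Δ (a, j) (a', j) := by
  have key : ∀ k : ℕ, Conn Δ (a, j) (a + k, j) := by
    intro k
    induction k with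
    | zero => rw [Nat.cast_zero, add_zero]; exact conn_refl _ _
    | succ k ih =>
      refine conn_trans ih ?_
      have h1 := conn_row_edge (Δ := Δ) (a + (k : ZMod n), j) (h _)
      rw [Nat.cast_succ, ← add_assoc]
      exact h1
  have h2 := key (a' - a).val
  rw [ZMod.natCast_zmod_val] at h2
  rwa [add_sub_cancel] at h2

theorem conn_col {Δ : Finset (Ed n)} [NeZero n] {a : ZMod n} (h : ColOK Δ a) (j j' : ZMod n) :
    Conn Δ (a, j) (a, j') := by
  have key : ∀ k : ℕ, Conn Δ (a, j) (a, j + k) := by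
    intro k
    induction k with
    | zero => rw [Nat.cast_zero, add_zero]; exact conn_refl _ _
    | succ k ih =>
      refine conn_trans ih ?_
      have h1 := conn_col_edge (Δ := Δ) (a, j + (k : ZMod n)) (h _)
      rw [Nat.cast_succ, ← add_assoc]
      exact h1
  have h2 := key (j' - j).val
  rw [ZMod.natCast_zmod_val] at h2
  rwa [add_sub_cancel] at h2

theorem exists_row [NeZero n] (Δ : Finset (Ed n)) (h : Δ.card < n) : ∃ j, RowOK Δ j := by
  classical
  by_contra hcon
  have h1 : (univ : Finset (ZMod n)) ⊆ Δ.image (fun e => e.1.2) := by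
    intro j _
    by_contra hj
    apply hcon
    refine ⟨j, fun a ha => hj ?_⟩
    rw [mem_image]
    exact ⟨_, ha, rfl⟩
  have h2 := card_le_card h1
  rw [card_univ, ZMod.card] at h2
  exact absurd (h2.trans card_image_le) (not_le.2 h)

theorem exists_col [NeZero n] (Δ : Finset (Ed n)) (h : Δ.card < n) : ∃ j, ColOK Δ j := by
  classical
  by_contra hcon
  have h1 : (univ : Finset (ZMod n)) ⊆ Δ.image (fun e => e.1.1) := by
    intro j _
    by_contra hj
    apply hcon
    refine ⟨j, fun a ha => hj ?_⟩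
    rw [mem_image]
    exact ⟨_, ha, rfl⟩
  have h2 := card_le_card h1
  rw [card_univ, ZMod.card] at h2
  exact absurd (h2.trans card_image_le) (not_le.2 h)

/-- in the big component -/
def Big (Δ : Finset (Ed n)) (v : Vx n) : Prop := ∃ w, RowOK Δ w.2 ∧ Conn Δ v w

theorem big_conn [NeZero n] {Δ : Finset (Ed n)} (h : Δ.card < n) {v v' : Vx n} (hv : Big Δ v)
    (hv' : Big Δ v') : Conn Δ v v' := by
  obtain ⟨a, ha⟩ := exists_col Δ h
  obtain ⟨w, hw1, hw2⟩ := hv
  obtain ⟨w', hw1', hw2'⟩ := hv'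
  have h1 : Conn Δ w (a, w.2) := conn_row hw1 w.1 a
  have h2 : Conn Δ w' (a, w'.2) := conn_row hw1' w'.1 a
  have h3 : Conn Δ (a, w.2) (a, w'.2) := conn_col ha _ _
  exact conn_trans hw2 (conn_trans h1 (conn_trans h3 (conn_trans (conn_symm h2)
    (conn_symm hw2'))))

theorem big_inter [NeZero n] (Δ Δ' : Finset (Ed n)) (h : Δ.card + Δ'.card < n) :
    ∃ v, Big Δ v ∧ Big Δ' v := by
  classical
  obtain ⟨j, hj⟩ := exists_row (Δ ∪ Δ') ((card_union_le _ _).trans_lt h)
  refine ⟨(0, j), ⟨(0, j), ?_, conn_refl _ _⟩, ⟨(0, j), ?_, conn_refl _ _⟩⟩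
  · intro a ha; exact hj a (mem_union_left _ ha)
  · intro a ha; exact hj a (mem_union_right _ ha)

theorem big_inc {Δ : Finset (Ed n)} {v : Vx n} (h : Big Δ v) : ∃ i, inc v i ∉ Δ := by
  by_contra hcon
  push Not at hcon
  obtain ⟨w, hw, f, hf1, hf2⟩ := h
  have h0 : inc v 0 = (v, false) := rfl
  have hvw : v ≠ w := by
    rintro rfl
    have h1 := hcon 0
    rw [h0] at h1
    exact hw v.1 h1
  have h2 : bd f v = 0 := by
    unfold bd
    exact sum_eq_zero fun i _ => hf1 _ (hcon i)
  rw [hf2, dl_same, dl_ne w v hvw] at h2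
  exact absurd h2 (by decide)

end Pool.Agent.T9h47.SC
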