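import Mathlib
import Pool.Agent.T9h47.SC.Final

/-!
# Symmetric circuits checking a solution
-/

set_option autoImplicit false
set_option linter.unusedSectionVars false

namespace Pool.Agent.T9h47.SC

open Finset

/-- unbounded sum -/
def sumOp {K : Type} [Field K] (m : ℕ → Multiset K) : K := (m 0).sum

/-- unbounded product (of the children in the roles `0` and `1`) -/
def prodOp {K : Type} [Field K] (m : ℕ → Multiset K) : K := (m 0).prod * (m 1).prod

/-- zero test -/
noncomputable def testOp {K : Type} [Field K] (m : ℕ → Multiset K) : K :=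
  open Classical in if (m 0).sum = 0 then 1 else 0

/-- all operations are sums, products and zero tests -/
def Arithmetic {K I : Type} [Field K] (C : Circuit K I) : Prop :=
  ∀ g f, C.lab g = Sum.inr f → f = sumOp ∨ f = prodOp ∨ f = testOp

/-- gates of the checking circuit -/
abbrev VG (Q U : Type) : Type :=
  ((Q × Sym2 (Option U)) ⊕ Option U) ⊕ (Sym2 (Option U) ⊕ ((Q × Sym2 (Option U)) ⊕ (Q ⊕ Unit)))

noncomputable local instance (Q U : Type) : DecidableEq (VG Q U) := Classical.decEq _

section

variable {Q U : Type} [Fintype Q] [Fintype U] [DecidableEq U]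

/-- input coefficient -/
abbrev gX (p : Q × Sym2 (Option U)) : VG Q U := Sum.inl (Sum.inl p)
/-- input unknown or the constant one -/
abbrev gY (a : Option U) : VG Q U := Sum.inl (Sum.inr a)
/-- monomial -/
abbrev gM (z : Sym2 (Option U)) : VG Q U := Sum.inr (Sum.inl z)
/-- term -/
abbrev gT (p : Q × Sym2 (Option U)) : VG Q U := Sum.inr (Sum.inr (Sum.inl p))
/-- equation -/
abbrev gE (q : Q) : VG Q U := Sum.inr (Sum.inr (Sum.inr (Sum.inl q)))
/-- output -/
abbrev gO : VG Q U := Sum.inr (Sum.inr (Sum.inr (Sum.inr ())))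

/-- children -/
noncomputable def vkids : VG Q U → Finset (ℕ × VG Q U)
  | Sum.inl _ => ∅
  | Sum.inr (Sum.inl z) => (univ.filter (fun a => a ∈ z)).image (fun a => (0, gY a)) ∪
      (univ.filter (fun a => z = s(a, a))).image (fun a => (1, gY a))
  | Sum.inr (Sum.inr (Sum.inl p)) => {(0, gX p), (0, gM p.2)}
  | Sum.inr (Sum.inr (Sum.inr (Sum.inl q))) => univ.image (fun z => (0, gT (q, z)))
  | Sum.inr (Sum.inr (Sum.inr (Sum.inr _))) => univ.image (fun q => (0, gE q))

theorem mem_vkids_inl (a : (Q × Sym2 (Option U)) ⊕ Option U) (p : ℕ × VG Q U) :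
    p ∈ vkids (Sum.inl a) ↔ False := by
  show p ∈ (∅ : Finset _) ↔ _
  simp only [notMem_empty]

theorem mem_vkids_M (z : Sym2 (Option U)) (p : ℕ × VG Q U) :
    p ∈ vkids (gM z) ↔ (∃ a, a ∈ z ∧ p = (0, gY a)) ∨ (∃ a, z = s(a, a) ∧ p = (1, gY a)) := by
  show p ∈ (univ.filter (fun a => a ∈ z)).image (fun a => ((0 : ℕ), (gY a : VG Q U))) ∪
      (univ.filter (fun a => z = s(a, a))).image (fun a => ((1 : ℕ), (gY a : VG Q U))) ↔ _
  rw [mem_union, mem_image, mem_image]
  simp only [mem_filter, mem_univ, true_and, eq_comm (b := p)]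

theorem mem_vkids_T (q : Q × Sym2 (Option U)) (p : ℕ × VG Q U) :
    p ∈ vkids (gT q) ↔ p = (0, gX q) ∨ p = (0, gM q.2) := by
  show p ∈ ({(0, gX q), (0, gM q.2)} : Finset (ℕ × VG Q U)) ↔ _
  rw [mem_insert, mem_singleton]

theorem mem_vkids_E (q : Q) (p : ℕ × VG Q U) :
    p ∈ vkids (gE q) ↔ ∃ z, p = (0, gT (q, z)) := by
  show p ∈ univ.image (fun z => ((0 : ℕ), (gT (q, z) : VG Q U))) ↔ _
  rw [mem_image]
  simp only [mem_univ, true_and, eq_comm (b := p)]

theorem mem_vkids_O (p : ℕ × VG Q U) :
    p ∈ vkids (gO : VG Q U) ↔ ∃ q, p = (0, gE q) := by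
  show p ∈ univ.image (fun q => ((0 : ℕ), (gE q : VG Q U))) ↔ _
  rw [mem_image]
  simp only [mem_univ, true_and, eq_comm (b := p)]

/-- rank -/
def vrank : VG Q U → ℕ
  | Sum.inl _ => 0
  | Sum.inr (Sum.inl _) => 1
  | Sum.inr (Sum.inr (Sum.inl _)) => 2
  | Sum.inr (Sum.inr (Sum.inr (Sum.inl _))) => 3
  | Sum.inr (Sum.inr (Sum.inr (Sum.inr _))) => 4

/-- labels -/
noncomputable def vlab (K : Type) [Field K] : VG Q U →
    ((Q × Sym2 (Option U)) ⊕ U) ⊕ ((ℕ → Multiset K) → K)
  | Sum.inl (Sum.inl p) => Sum.inl (Sum.inl p)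
  | Sum.inl (Sum.inr (some u)) => Sum.inl (Sum.inr u)
  | Sum.inl (Sum.inr none) => Sum.inr prodOp
  | Sum.inr (Sum.inl _) => Sum.inr prodOp
  | Sum.inr (Sum.inr (Sum.inl _)) => Sum.inr prodOp
  | Sum.inr (Sum.inr (Sum.inr (Sum.inl _))) => Sum.inr testOp
  | Sum.inr (Sum.inr (Sum.inr (Sum.inr _))) => Sum.inr prodOp

/-- the checking circuit -/
noncomputable def checker (K Q U : Type) [Field K] [Fintype Q] [Fintype U]
    [DecidableEq U] : Circuit K ((Q × Sym2 (Option U)) ⊕ U) where
  Gate := VG Q U
  fin := inferInstance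
  rank := vrank
  lab := vlab K
  kids := vkids
  out := gO
  rank_lt := by
    intro g p hp
    rcases g with g | z | q | q | q
    · rw [mem_vkids_inl] at hp
      exact absurd hp id
    · rcases (mem_vkids_M z p).1 hp with ⟨a, _, rfl⟩ | ⟨a, _, rfl⟩ <;> exact Nat.zero_lt_one
    · rcases (mem_vkids_T q p).1 hp with rfl | rfl
      · exact Nat.zero_lt_two
      · exact Nat.one_lt_two
    · obtain ⟨z, rfl⟩ := (mem_vkids_E q p).1 hp
      show 2 < 3
      norm_num
    · obtain ⟨z, rfl⟩ := (mem_vkids_O p).1 hp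
      show 3 < 4
      norm_num

/-- the renaming of gates -/
def vmap (πQ : Equiv.Perm Q) (πU : Equiv.Perm U) : VG Q U → VG Q U :=
  Sum.map (Sum.map (rename πQ πU) (Option.map πU))
    (Sum.map (Sym2.map (Option.map πU)) (Sum.map (rename πQ πU) (Sum.map πQ id)))

theorem map2_inv (πU πU' : Equiv.Perm U) (h : πU' * πU = 1) (z : Sym2 (Option U)) :
    Sym2.map (Option.map πU') (Sym2.map (Option.map πU) z) = z := by
  rw [Sym2.map_map, Option.map_comp_map]
  have h1 : (πU' ∘ πU : U → U) = id := by
    rw [← Equiv.Perm.coe_mul, h]; rfl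
  rw [h1, Option.map_id, Sym2.map_id]
  rfl

theorem vmap_inv (πQ πQ' : Equiv.Perm Q) (πU πU' : Equiv.Perm U) (hQ : πQ' * πQ = 1)
    (hU : πU' * πU = 1) (g : VG Q U) : vmap πQ' πU' (vmap πQ πU g) = g := by
  have hQ' : ∀ q, πQ' (πQ q) = q := by
    intro q; rw [← Equiv.Perm.mul_apply, hQ]; rfl
  have hO : ∀ a, Option.map πU' (Option.map πU a) = a := by
    intro a
    rcases a with _ | a
    · rfl
    · show some (πU' (πU a)) = some a
      rw [← Equiv.Perm.mul_apply, hU]; rfl
  have hR : ∀ p : Q × Sym2 (Option U), rename πQ' πU' (rename πQ πU p) = p := by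
    intro p
    rcases p with ⟨q, z⟩
    exact Prod.ext (hQ' q) (map2_inv πU πU' hU z)
  rcases g with (p | a) | z | p | q | q
  · exact congrArg (fun p => Sum.inl (Sum.inl p)) (hR p)
  · exact congrArg (fun p => Sum.inl (Sum.inr p)) (hO a)
  · exact congrArg (fun p => Sum.inr (Sum.inl p)) (map2_inv πU πU' hU z)
  · exact congrArg (fun p => Sum.inr (Sum.inr (Sum.inl p))) (hR p)
  · exact congrArg (fun p => Sum.inr (Sum.inr (Sum.inr (Sum.inl p)))) (hQ' q)
  · rfl

/-- the automorphism of a renaming -/
def vaut (πQ : Equiv.Perm Q) (πU : Equiv.Perm U) : Equiv.Perm (VG Q U) where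
  toFun := vmap πQ πU
  invFun := vmap πQ⁻¹ πU⁻¹
  left_inv := vmap_inv _ _ _ _ (inv_mul_cancel _) (inv_mul_cancel _)
  right_inv := vmap_inv _ _ _ _ (mul_inv_cancel _) (mul_inv_cancel _)

theorem vaut_kids (πQ : Equiv.Perm Q) (πU : Equiv.Perm U) (g h : VG Q U) (r : ℕ)
    (hh : (r, h) ∈ vkids g) : (r, vmap πQ πU h) ∈ vkids (vmap πQ πU g) := by
  rcases g with g | z | q | q | q
  · rw [mem_vkids_inl] at hh
    exact absurd hh id
  · show _ ∈ vkids (gM (Sym2.map (Option.map πU) z))
    rw [mem_vkids_M]
    rcases (mem_vkids_M z _).1 hh with ⟨a, ha, he⟩ | ⟨a, ha, he⟩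
    · left
      have h1 := Prod.ext_iff.1 he
      have h2 : r = 0 := h1.1
      have h3 : h = gY a := h1.2
      subst h2 h3
      exact ⟨Option.map πU a, Sym2.mem_map.2 ⟨a, ha, rfl⟩, rfl⟩
    · right
      have h1 := Prod.ext_iff.1 he
      have h2 : r = 1 := h1.1
      have h3 : h = gY a := h1.2
      subst h2 h3
      exact ⟨Option.map πU a, by rw [ha, Sym2.map_mk], rfl⟩
  · show _ ∈ vkids (gT (rename πQ πU q))
    rw [mem_vkids_T]
    rcases (mem_vkids_T q _).1 hh with he | he
    · left
      have h1 := Prod.ext_iff.1 he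
      have h2 : r = 0 := h1.1
      have h3 : h = gX q := h1.2
      subst h2 h3
      rfl
    · right
      have h1 := Prod.ext_iff.1 he
      have h2 : r = 0 := h1.1
      have h3 : h = gM q.2 := h1.2
      subst h2 h3
      rfl
  · show _ ∈ vkids (gE (πQ q))
    rw [mem_vkids_E]
    obtain ⟨z, he⟩ := (mem_vkids_E q _).1 hh
    have h1 := Prod.ext_iff.1 he
    have h2 : r = 0 := h1.1
    have h3 : h = gT (q, z) := h1.2
    subst h2 h3
    exact ⟨Sym2.map (Option.map πU) z, rfl⟩
  · show _ ∈ vkids (gO : VG Q U)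
    rw [mem_vkids_O]
    obtain ⟨z, he⟩ := (mem_vkids_O _).1 hh
    have h1 := Prod.ext_iff.1 he
    have h2 : r = 0 := h1.1
    have h3 : h = gE z := h1.2
    subst h2 h3
    exact ⟨πQ z, rfl⟩

theorem checker_aut (K : Type) [Field K] (πQ : Equiv.Perm Q) (πU : Equiv.Perm U) :
    (checker K Q U).IsAut (Sum.map (rename πQ πU) πU) (vaut πQ πU) where
  out := rfl
  lab g := by
    rcases g with (p | _ | a) | z | p | q | q <;> rfl
  kids g r h := by
    constructor
    · intro hh
      have h1 : (r, vmap πQ⁻¹ πU⁻¹ (vmap πQ πU h)) ∈ vkids (vmap πQ⁻¹ πU⁻¹ (vmap πQ πU g)) :=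
        vaut_kids πQ⁻¹ πU⁻¹ _ _ r hh
      have h2 : ∀ g : VG Q U, vmap πQ⁻¹ πU⁻¹ (vmap πQ πU g) = g :=
        vmap_inv _ _ _ _ (inv_mul_cancel _) (inv_mul_cancel _)
      rw [h2 h, h2 g] at h1
      exact h1
    · exact vaut_kids πQ πU g h r

theorem checker_arith (K : Type) [Field K] : Arithmetic (checker K Q U) := by
  intro g f hg
  rcases g with (p | _ | a) | z | p | q | q
  · exact absurd hg Sum.inl_ne_inr
  · right; left; exact (Sum.inr.inj hg).symm
  · exact absurd hg Sum.inl_ne_inr
  · right; left; exact (Sum.inr.inj hg).symm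
  · right; left; exact (Sum.inr.inj hg).symm
  · right; right; exact (Sum.inr.inj hg).symm
  · right; left; exact (Sum.inr.inj hg).symm

/-- the values of the children in a role -/
theorem kids_map {K : Type} (g : VG Q U) (r : ℕ) (S : Finset (VG Q U)) (v : VG Q U → K)
    (hS : ∀ h, h ∈ S ↔ (r, h) ∈ vkids g) :
    ((vkids g).filter (fun p => p.1 = r)).val.map (fun p => v p.2) = S.val.map v := by
  have h1 : (vkids g).filter (fun p => p.1 = r) =
      S.map ⟨fun h => (r, h), fun a b hab => (Prod.ext_iff.1 hab).2⟩ := by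
    ext ⟨s, h⟩
    rw [mem_filter, mem_map]
    constructor
    · rintro ⟨h2, h3⟩
      have h3' : s = r := h3
      subst h3'
      exact ⟨h, (hS h).2 h2, rfl⟩
    · rintro ⟨h', h2, h3⟩
      have h4 := Prod.ext_iff.1 h3
      have h5 : r = s := h4.1
      have h6 : h' = h := h4.2
      subst h5 h6
      exact ⟨(hS h').1 h2, rfl⟩
  rw [h1, Finset.map_val, Multiset.map_map]
  rfl

theorem checker_val (K : Type) [Field K] (x : Q × Sym2 (Option U) → K) (y : U → K) :
    (checker K Q U).val (Sum.elim x y) (checker K Q U).out = 1 ↔ Solves (K := K) (L := K) x y := by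
  classical
  obtain ⟨V, hV⟩ : ∃ V : VG Q U → K, V = (checker K Q U).val (Sum.elim x y) := ⟨_, rfl⟩
  have hX : ∀ p, V (gX p) = x p := by
    intro p
    rw [hV]
    exact (checker K Q U).val_inl _ _ (Sum.inl p) rfl
  have hY : ∀ a, V (gY a) = a.elim 1 y := by
    intro a
    rcases a with _ | a
    · rw [hV]
      refine ((checker K Q U).val_inr _ (gY none : VG Q U) prodOp rfl).trans ?_
      rw [← hV]
      unfold prodOp
      show ((((vkids (gY none : VG Q U)).filter (fun p => p.1 = 0)).val.map (fun p => V p.2)).prod *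
        (((vkids (gY none : VG Q U)).filter (fun p => p.1 = 1)).val.map
          (fun p => V p.2)).prod) = 1
      rw [kids_map (gY none) 0 ∅ V, kids_map (gY none) 1 ∅ V, empty_val, Multiset.map_zero,
        Multiset.prod_zero, mul_one]
      · intro h
        rw [mem_vkids_inl]
        simp only [notMem_empty]
      · intro h
        rw [mem_vkids_inl]
        simp only [notMem_empty]
    · rw [hV]
      exact (checker K Q U).val_inl _ _ (Sum.inr a) rfl
  have hM : ∀ z, V (gM z) = mon y z := by
    intro z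
    rw [hV]
    refine ((checker K Q U).val_inr _ (gM z : VG Q U) prodOp rfl).trans ?_
    rw [← hV]
    unfold prodOp
    show ((((vkids (gM z : VG Q U)).filter (fun p => p.1 = 0)).val.map (fun p => V p.2)).prod *
        (((vkids (gM z : VG Q U)).filter (fun p => p.1 = 1)).val.map (fun p => V p.2)).prod) = _
    induction z using Sym2.inductionOn with
    | hf a b =>
      have hm : mon y s(a, b) = a.elim 1 y * b.elim 1 y := rfl
      rw [hm, kids_map (gM s(a, b)) 0 {gY a, gY b} V, kids_map (gM s(a, b)) 1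
        (if a = b then {gY a} else ∅) V]
      · by_cases hab : a = b
        · subst hab
          rw [if_pos rfl, insert_eq_of_mem (mem_singleton_self _)]
          simp only [singleton_val, Multiset.map_singleton, Multiset.prod_singleton, hY]
        · rw [if_neg hab]
          have hne : (gY a : VG Q U) ≠ gY b := by
            intro h; exact hab (Sum.inr.inj (Sum.inl.inj h))
          rw [insert_val_of_notMem (by rw [mem_singleton]; exact hne)]
          simp only [singleton_val, Multiset.map_cons, Multiset.map_singleton,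
            Multiset.prod_cons, Multiset.prod_singleton, hY, empty_val, Multiset.map_zero,
            Multiset.prod_zero, mul_one]
      · intro h
        rw [mem_vkids_M]
        constructor
        · intro hh
          right
          by_cases hab : a = b
          · subst hab
            rw [if_pos rfl, mem_singleton] at hh
            exact ⟨a, rfl, by rw [hh]⟩
          · rw [if_neg hab] at hh
            exact absurd hh (notMem_empty _)
        · rintro (⟨c, _, hc⟩ | ⟨c, hc1, hc2⟩)
          · exact absurd (Prod.ext_iff.1 hc).1 (by norm_num)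
          · have h3 : h = gY c := (Prod.ext_iff.1 hc2).2
            rw [Sym2.eq_iff] at hc1
            have h4 : a = c ∧ b = c := by tauto
            obtain ⟨rfl, rfl⟩ := h4
            rw [if_pos rfl, mem_singleton]
            exact h3
      · intro h
        rw [mem_vkids_M, mem_insert, mem_singleton]
        constructor
        · rintro (rfl | rfl)
          · exact Or.inl ⟨a, Sym2.mem_mk_left _ _, rfl⟩
          · exact Or.inl ⟨b, Sym2.mem_mk_right _ _, rfl⟩
        · rintro (⟨c, hc1, hc2⟩ | ⟨c, _, hc⟩)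
          · have h3 : h = gY c := (Prod.ext_iff.1 hc2).2
            rw [Sym2.mem_iff] at hc1
            rcases hc1 with rfl | rfl
            · exact Or.inl h3
            · exact Or.inr h3
          · exact absurd (Prod.ext_iff.1 hc).1 (by norm_num)
  have hT : ∀ p, V (gT p) = x p * mon y p.2 := by
    intro p
    rw [hV]
    refine ((checker K Q U).val_inr _ (gT p : VG Q U) prodOp rfl).trans ?_
    rw [← hV]
    unfold prodOp
    show ((((vkids (gT p : VG Q U)).filter (fun p => p.1 = 0)).val.map (fun p => V p.2)).prod *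
        (((vkids (gT p : VG Q U)).filter (fun p => p.1 = 1)).val.map (fun p => V p.2)).prod) = _
    rw [kids_map (gT p) 0 {gX p, gM p.2} V, kids_map (gT p) 1 ∅ V]
    · have hne : (gX p : VG Q U) ≠ gM p.2 := Sum.inl_ne_inr
      rw [insert_val_of_notMem (by rw [mem_singleton]; exact hne)]
      simp only [singleton_val, Multiset.map_cons, Multiset.map_singleton,
            Multiset.prod_cons, Multiset.prod_singleton, hX, hM, empty_val, Multiset.map_zero,
            Multiset.prod_zero, mul_one]
    · intro h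
      rw [mem_vkids_T]
      constructor
      · intro hh; exact absurd hh (notMem_empty _)
      · rintro (h3 | h3) <;> exact absurd (Prod.ext_iff.1 h3).1 (by norm_num)
    · intro h
      rw [mem_vkids_T, mem_insert, mem_singleton]
      constructor
      · rintro (rfl | rfl)
        · exact Or.inl rfl
        · exact Or.inr rfl
      · rintro (h3 | h3)
        · exact Or.inl (Prod.ext_iff.1 h3).2
        · exact Or.inr (Prod.ext_iff.1 h3).2
  have hE : ∀ q, V (gE q) = if ∑ z, x (q, z) * mon y z = 0 then 1 else 0 := by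
    intro q
    rw [hV]
    refine ((checker K Q U).val_inr _ (gE q : VG Q U) testOp rfl).trans ?_
    rw [← hV]
    unfold testOp
    have h1 : (((vkids (gE q : VG Q U)).filter (fun p => p.1 = 0)).val.map
        (fun p => V p.2)).sum = ∑ z, x (q, z) * mon y z := by
      rw [kids_map (gE q) 0 (univ.map ⟨fun z => gT (q, z), fun a b hab =>
        (Prod.ext_iff.1 (Sum.inl.inj (Sum.inr.inj (Sum.inr.inj hab)))).2⟩) V]
      · rw [Finset.map_val, Multiset.map_map]
        show ∑ z, V (gT (q, z)) = _
        exact sum_congr rfl fun z _ => hT (q, z)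
      · intro h
        rw [mem_vkids_E, mem_map]
        constructor
        · rintro ⟨z, _, hz⟩
          exact ⟨z, Prod.ext rfl hz.symm⟩
        · rintro ⟨z, hz⟩
          exact ⟨z, mem_univ _, (Prod.ext_iff.1 hz).2.symm⟩
    show (if (((vkids (gE q : VG Q U)).filter (fun p => p.1 = 0)).val.map
        (fun p => V p.2)).sum = 0 then (1 : K) else 0) = _
    rw [h1]
  have hO : V gO = ∏ q, if ∑ z, x (q, z) * mon y z = 0 then (1 : K) else 0 := by
    rw [hV]
    refine ((checker K Q U).val_inr _ (gO : VG Q U) prodOp rfl).trans ?_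
    rw [← hV]
    unfold prodOp
    show ((((vkids (gO : VG Q U)).filter (fun p => p.1 = 0)).val.map (fun p => V p.2)).prod *
        (((vkids (gO : VG Q U)).filter (fun p => p.1 = 1)).val.map (fun p => V p.2)).prod) = _
    rw [kids_map gO 1 ∅ V, kids_map gO 0 (univ.map ⟨fun q => gE q, fun a b hab =>
        Sum.inl.inj (Sum.inr.inj (Sum.inr.inj (Sum.inr.inj hab)))⟩) V]
    · rw [Finset.map_val, Multiset.map_map, empty_val, Multiset.map_zero, Multiset.prod_zero,
        mul_one]
      show ∏ q, V (gE q) = _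
      exact prod_congr rfl fun q _ => hE q
    · intro h
      rw [mem_vkids_O, mem_map]
      constructor
      · rintro ⟨z, _, hz⟩
        exact ⟨z, Prod.ext rfl hz.symm⟩
      · rintro ⟨z, hz⟩
        exact ⟨z, mem_univ _, (Prod.ext_iff.1 hz).2.symm⟩
    · intro h
      rw [mem_vkids_O]
      constructor
      · intro hh; exact absurd hh (notMem_empty _)
      · rintro ⟨z, h3⟩
        exact absurd (Prod.ext_iff.1 h3).1 (by norm_num)
  have hout : (checker K Q U).val (Sum.elim x y) (checker K Q U).out = V gO := by rw [hV]; rfl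
  rw [hout, hO]
  constructor
  · intro h q
    by_contra hq
    rw [prod_eq_zero (mem_univ q)] at h
    · exact zero_ne_one h
    · exact if_neg hq
  · intro h
    exact prod_eq_one fun q _ => if_pos (h q)

theorem checker_card (K : Type) [Field K] (M N : ℕ) (hQ : Fintype.card Q = M)
    (hU : Fintype.card U = N) :
    @Fintype.card (checker K Q U).Gate (checker K Q U).fin ≤ 2 * (M + 1) * (N + 2) ^ 2 := by
  have h1 : @Fintype.card (checker K Q U).Gate (checker K Q U).fin = Fintype.card (VG Q U) := rfl
  rw [h1]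
  simp only [VG, Fintype.card_sum, Fintype.card_prod, Fintype.card_option, Sym2.card,
    Fintype.card_unit, hQ, hU]
  have h2 : (N + 1 + 1).choose 2 ≤ (N + 2) * (N + 1) / 2 := by
    rw [Nat.choose_two_right]
    simp
  have h3 : 2 * (N + 1 + 1).choose 2 ≤ (N + 2) * (N + 1) := by omega
  nlinarith [h3, Nat.zero_le (M * N), Nat.zero_le M, Nat.zero_le N]

end

end Pool.Agent.T9h47.SC
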