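import Mathlib
import Pool.Agent.T9h47.SC.Verif

/-!
# Making a circuit symmetric on few equations and unknowns
-/

set_option autoImplicit false
set_option linter.unusedSectionVars false

namespace Pool.Agent.T9h47.SC

open Finset

/-- all operations of the circuit belong to `B` -/
def UsesOps {K I : Type} (C : Circuit K I) (B : Set ((ℕ → Multiset K) → K)) : Prop :=
  ∀ g f, C.lab g = Sum.inr f → f ∈ B

section

variable {K Q U : Type} [Field K]

/-- the renaming of a pair of permutations of subsets -/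
def renP {R : Finset Q} {H : Finset U} [DecidableEq Q] [DecidableEq U]
    (p : Equiv.Perm R × Equiv.Perm H) : Q × Sym2 (Option U) → Q × Sym2 (Option U) :=
  rename (Equiv.Perm.ofSubtype p.1) (Equiv.Perm.ofSubtype p.2)

theorem rename_mul (σ σ' : Equiv.Perm Q) (τ τ' : Equiv.Perm U) :
    rename (σ * σ') (τ * τ') = rename σ τ ∘ rename σ' τ' := by
  funext p
  rcases p with ⟨q, z⟩
  show ((σ * σ') q, Sym2.map (Option.map (τ * τ')) z) =
    (σ (σ' q), Sym2.map (Option.map τ) (Sym2.map (Option.map τ') z))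
  rw [Sym2.map_map, Option.map_comp_map]
  rfl

variable [DecidableEq Q] [DecidableEq U] (C : Circuit K (Q × Sym2 (Option U)))
  (R : Finset Q) (H : Finset U)

/-- gates of the symmetrized circuit -/
abbrev SG : Type := ((Equiv.Perm R × Equiv.Perm H) × C.Gate) ⊕ Unit

noncomputable local instance : DecidableEq (SG C R H) := Classical.decEq _

/-- children -/
noncomputable def skids : SG C R H → Finset (ℕ × SG C R H)
  | Sum.inl a => (C.kids a.2).image (fun b => (b.1, Sum.inl (a.1, b.2)))
  | Sum.inr _ => univ.image (fun p => (0, Sum.inl (p, C.out)))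

theorem mem_skids_inl (p : Equiv.Perm R × Equiv.Perm H) (g : C.Gate) (b : ℕ × SG C R H) :
    b ∈ skids C R H (Sum.inl (p, g)) ↔ ∃ r h, (r, h) ∈ C.kids g ∧ b = (r, Sum.inl (p, h)) := by
  show b ∈ (C.kids g).image (fun b => (b.1, (Sum.inl (p, b.2) : SG C R H))) ↔ _
  rw [mem_image]
  constructor
  · rintro ⟨⟨r, h⟩, h1, h2⟩
    exact ⟨r, h, h1, h2.symm⟩
  · rintro ⟨r, h, h1, h2⟩
    exact ⟨(r, h), h1, h2.symm⟩

theorem mem_skids_inr (b : ℕ × SG C R H) :
    b ∈ skids C R H (Sum.inr ()) ↔ ∃ p, b = (0, Sum.inl (p, C.out)) := by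
  show b ∈ univ.image (fun p => ((0 : ℕ), (Sum.inl (p, C.out) : SG C R H))) ↔ _
  rw [mem_image]
  constructor
  · rintro ⟨p, _, h2⟩
    exact ⟨p, h2.symm⟩
  · rintro ⟨p, h2⟩
    exact ⟨p, mem_univ _, h2.symm⟩

/-- the symmetrized circuit -/
noncomputable def symz : Circuit K (Q × Sym2 (Option U)) where
  Gate := SG C R H
  fin := by
    let _ := C.fin
    exact inferInstance
  rank := Sum.elim (fun a => C.rank a.2) (fun _ => C.rank C.out + 1)
  lab := Sum.elim (fun a => Sum.map (renP a.1) id (C.lab a.2)) (fun _ => Sum.inr prodOp)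
  kids := skids C R H
  out := Sum.inr ()
  rank_lt := by
    intro g b hb
    rcases g with ⟨p, g⟩ | ⟨⟩
    · obtain ⟨r, h, h1, rfl⟩ := (mem_skids_inl C R H p g b).1 hb
      exact C.rank_lt g _ h1
    · obtain ⟨p, rfl⟩ := (mem_skids_inr C R H b).1 hb
      exact Nat.lt_succ_self _

theorem symz_val (x : Q × Sym2 (Option U) → K) (p : Equiv.Perm R × Equiv.Perm H) :
    ∀ (n : ℕ) (g : C.Gate), C.rank g < n →
      (symz C R H).val x (Sum.inl (p, g)) = C.val (x ∘ renP p) g := by
  intro n
  induction n with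
  | zero => intro g hg; exact absurd hg (Nat.not_lt_zero _)
  | succ n ih =>
    intro g hg
    cases hl : C.lab g with
    | inl i =>
      rw [C.val_inl _ g i hl]
      refine ((symz C R H).val_inl x _ (renP p i) ?_).trans rfl
      show Sum.map (renP p) id (C.lab g) = _
      rw [hl]
      rfl
    | inr f =>
      rw [C.val_inr _ g f hl]
      refine ((symz C R H).val_inr x (Sum.inl (p, g)) f ?_).trans ?_
      · show Sum.map (renP p) id (C.lab g) = _
        rw [hl]
        rfl
      congr 1
      funext r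
      show ((skids C R H (Sum.inl (p, g))).filter (fun b => b.1 = r)).val.map
        (fun b => (symz C R H).val x b.2) = _
      have h1 : (skids C R H (Sum.inl (p, g))).filter (fun b => b.1 = r) =
          ((C.kids g).filter (fun b => b.1 = r)).map
            ⟨fun b => (b.1, (Sum.inl (p, b.2) : SG C R H)), fun a b hab => by
              have h2 := Prod.ext_iff.1 hab
              have h3 : (Sum.inl (p, a.2) : SG C R H) = Sum.inl (p, b.2) := h2.2
              exact Prod.ext h2.1 (Prod.ext_iff.1 (Sum.inl.inj h3)).2⟩ := by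
        ext b
        rw [mem_filter, mem_map, mem_skids_inl]
        constructor
        · rintro ⟨⟨r', h, h2, rfl⟩, h3⟩
          exact ⟨(r', h), mem_filter.2 ⟨h2, h3⟩, rfl⟩
        · rintro ⟨⟨r', h⟩, h2, rfl⟩
          rw [mem_filter] at h2
          exact ⟨⟨r', h, h2.1, rfl⟩, h2.2⟩
      rw [h1, Finset.map_val, Multiset.map_map]
      refine Multiset.map_congr rfl ?_
      rintro ⟨r', k⟩ hk
      have hk' : (r', k) ∈ C.kids g := (mem_filter.1 hk).1
      exact ih k ((C.rank_lt g _ hk').trans_le (Nat.lt_succ_iff.1 hg))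

theorem symz_out (x : Q × Sym2 (Option U) → K)
    (h01 : C.val x C.out = 0 ∨ C.val x C.out = 1)
    (hinv : ∀ σ τ, C.val (x ∘ rename σ τ) C.out = C.val x C.out) :
    (symz C R H).val x (symz C R H).out = C.val x C.out := by
  obtain ⟨V, hV⟩ : ∃ V : SG C R H → K, V = (symz C R H).val x := ⟨_, rfl⟩
  refine ((symz C R H).val_inr x (Sum.inr ()) prodOp rfl).trans ?_
  rw [← hV]
  unfold prodOp
  show (((skids C R H (Sum.inr ())).filter (fun b => b.1 = 0)).val.map (fun b => V b.2)).prod *
    (((skids C R H (Sum.inr ())).filter (fun b => b.1 = 1)).val.map (fun b => V b.2)).prod = _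
  have h1 : (skids C R H (Sum.inr ())).filter (fun b => b.1 = 1) = ∅ := by
    rw [eq_empty_iff_forall_notMem]
    intro b hb
    rw [mem_filter, mem_skids_inr] at hb
    obtain ⟨⟨p, rfl⟩, h2⟩ := hb
    exact absurd h2 (by norm_num)
  rw [h1, empty_val, Multiset.map_zero, Multiset.prod_zero, mul_one]
  have h2 : ∀ b ∈ ((skids C R H (Sum.inr ())).filter (fun b => b.1 = 0)).val,
      V b.2 = C.val x C.out := by
    intro b hb
    have hb' : b ∈ (skids C R H (Sum.inr ())).filter (fun b => b.1 = 0) := hb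
    rw [mem_filter, mem_skids_inr] at hb'
    obtain ⟨⟨p, rfl⟩, _⟩ := hb'
    show V (Sum.inl (p, C.out)) = _
    rw [hV, symz_val C R H x p (C.rank C.out + 1) C.out (Nat.lt_succ_self _)]
    exact hinv _ _
  rw [Multiset.map_congr rfl h2, Multiset.map_const', Multiset.prod_replicate]
  have h3 : (((skids C R H (Sum.inr ())).filter (fun b => b.1 = 0)).val).card ≠ 0 := by
    rw [Finset.card_val, Finset.card_ne_zero]
    refine ⟨(0, Sum.inl ((1, 1), C.out)), ?_⟩
    rw [mem_filter, mem_skids_inr]
    exact ⟨⟨(1, 1), rfl⟩, rfl⟩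
  rcases h01 with h | h
  · rw [h, zero_pow h3]
  · rw [h, one_pow]

theorem symz_ops (B : Set ((ℕ → Multiset K) → K)) (hB : prodOp ∈ B) (hC : UsesOps C B) :
    UsesOps (symz C R H) B := by
  intro g f hg
  rcases g with ⟨p, g⟩ | ⟨⟩
  · have hg' : Sum.map (renP p) id (C.lab g) = Sum.inr f := hg
    cases hl : C.lab g with
    | inl i => rw [hl] at hg'; exact absurd hg' Sum.inl_ne_inr
    | inr f' =>
      rw [hl] at hg'
      have h1 : f' = f := Sum.inr.inj hg'
      rw [← h1]
      exact hC g f' hl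
  · have h1 : prodOp = f := Sum.inr.inj hg
    rw [← h1]
    exact hB

theorem symz_symm : SymmetricOn (symz C R H) R H := by
  intro πQ πU hQ hU
  obtain ⟨σ, hσ⟩ : ∃ σ : Equiv.Perm R, Equiv.Perm.ofSubtype σ = πQ := by
    refine ⟨πQ.subtypePerm (p := fun q => q ∈ R) ?_, ?_⟩
    · intro q
      constructor
      · intro h
        by_contra h2
        rw [hQ q h2] at h
        exact h2 h
      · intro h
        by_contra h2
        have h3 := hQ _ h2
        have h4 : πQ q = q := πQ.injective h3
        rw [h4] at h2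
        exact h2 h
    · refine Equiv.Perm.ofSubtype_subtypePerm _ ?_
      intro q hq
      by_contra h2
      exact hq (hQ q h2)
  obtain ⟨τ, hτ⟩ : ∃ τ : Equiv.Perm H, Equiv.Perm.ofSubtype τ = πU := by
    refine ⟨πU.subtypePerm (p := fun q => q ∈ H) ?_, ?_⟩
    · intro q
      constructor
      · intro h
        by_contra h2
        rw [hU q h2] at h
        exact h2 h
      · intro h
        by_contra h2
        have h3 := hU _ h2
        have h4 : πU q = q := πU.injective h3
        rw [h4] at h2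
        exact h2 h
    · refine Equiv.Perm.ofSubtype_subtypePerm _ ?_
      intro q hq
      by_contra h2
      exact hq (hU q h2)
  subst hσ hτ
  refine ⟨Equiv.sumCongr ((Equiv.mulLeft (σ, τ)).prodCongr (Equiv.refl _)) (Equiv.refl _), ?_⟩
  have key : ∀ (σ : Equiv.Perm R) (τ : Equiv.Perm H) (g h : SG C R H) (r : ℕ),
      (r, h) ∈ skids C R H g →
      (r, (Equiv.sumCongr ((Equiv.mulLeft (σ, τ)).prodCongr (Equiv.refl _)) (Equiv.refl _)) h) ∈
        skids C R H ((Equiv.sumCongr ((Equiv.mulLeft (σ, τ)).prodCongr (Equiv.refl _))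
          (Equiv.refl _)) g) := by
    intro σ τ g h r hh
    rcases g with ⟨p, g⟩ | ⟨⟩
    · obtain ⟨r', h', h1, h2⟩ := (mem_skids_inl C R H p g _).1 hh
      have h3 := Prod.ext_iff.1 h2
      have h4 : r = r' := h3.1
      have h5 : h = Sum.inl (p, h') := h3.2
      subst h4 h5
      exact (mem_skids_inl C R H _ g _).2 ⟨r, h', h1, rfl⟩
    · obtain ⟨p, h2⟩ := (mem_skids_inr C R H _).1 hh
      have h3 := Prod.ext_iff.1 h2
      have h4 : r = 0 := h3.1
      have h5 : h = Sum.inl (p, C.out) := h3.2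
      subst h4 h5
      exact (mem_skids_inr C R H _).2 ⟨_, rfl⟩
  constructor
  · rfl
  · intro g
    rcases g with ⟨p, g⟩ | ⟨⟩
    · show Sum.map (renP ((σ, τ) * p)) id (C.lab g) =
        Sum.map (rename (Equiv.Perm.ofSubtype σ) (Equiv.Perm.ofSubtype τ)) id
          (Sum.map (renP p) id (C.lab g))
      have h1 : (renP ((σ, τ) * p) : Q × Sym2 (Option U) → _) =
          rename (Equiv.Perm.ofSubtype σ) (Equiv.Perm.ofSubtype τ) ∘ renP p := by
        unfold renP
        rw [← rename_mul, ← map_mul, ← map_mul]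
        rfl
      rw [h1]
      cases C.lab g <;> rfl
    · rfl
  · intro g r h
    constructor
    · intro hh
      have h1 := key σ⁻¹ τ⁻¹ _ _ r hh
      have h2 : ∀ g : SG C R H,
          (Equiv.sumCongr ((Equiv.mulLeft (σ⁻¹, τ⁻¹)).prodCongr (Equiv.refl C.Gate))
            (Equiv.refl Unit)) ((Equiv.sumCongr ((Equiv.mulLeft (σ, τ)).prodCongr
              (Equiv.refl C.Gate)) (Equiv.refl Unit)) g) = g := by
        intro g
        rcases g with ⟨p, g⟩ | ⟨⟩
        · show (Sum.inl ((σ⁻¹, τ⁻¹) * ((σ, τ) * p), g) : SG C R H) = Sum.inl (p, g)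
          have h3 : (σ⁻¹, τ⁻¹) * ((σ, τ) * p) = p := by
            rw [← mul_assoc]
            have h4 : ((σ⁻¹, τ⁻¹) * (σ, τ) : Equiv.Perm R × Equiv.Perm H) = 1 := by
              rw [Prod.mk_mul_mk, inv_mul_cancel, inv_mul_cancel]
              rfl
            rw [h4, one_mul]
          rw [h3]
        · rfl
      have h4 := congrArg₂ (fun (a b : SG C R H) => (r, a) ∈ skids C R H b) (h2 h) (h2 g)
      exact h4.mp h1
    · exact key σ τ g h r

theorem symz_card : @Fintype.card (symz C R H).Gate (symz C R H).fin =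
    R.card.factorial * H.card.factorial * @Fintype.card C.Gate C.fin + 1 := by
  let _ := C.fin
  have h1 : @Fintype.card (symz C R H).Gate (symz C R H).fin = Fintype.card (SG C R H) := rfl
  rw [h1]
  simp only [SG, Fintype.card_sum, Fintype.card_prod, Fintype.card_perm, Fintype.card_coe,
    Fintype.card_unit]

end

end Pool.Agent.T9h47.SC
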